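import Mathlib
import Pool.Agent.Lib.MP_993768_co.Tables

set_option autoImplicit false
set_option maxRecDepth 100000

/-!
Kernel checks on the explicit posets.
-/

namespace Pool.Agent.Lib.MP_993768_co

/-- Table lookup. -/
def tab (l : List ℕ) (i : ℕ) : ℕ := l.getD i 0

theorem okP : okB 21 codeP = true := by decide +kernel
theorem okQ : okB 21 codeQ = true := by decide +kernel
theorem okR1 : okB 41 codeR1 = true := by decide +kernel
theorem okR2 : okB 41 codeR2 = true := by decide +kernel

theorem gradedP : gradedB 21 codeP rankP 3 = true := by decide +kernel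
theorem gradedQ : gradedB 21 codeQ rankQ 3 = true := by decide +kernel
theorem gradedR1 : gradedB 41 codeR1 rankR 4 = true := by decide +kernel
theorem gradedR2 : gradedB 41 codeR2 rankR 4 = true := by decide +kernel

theorem diamondP : diamondB 21 codeP rankP = true := by decide +kernel
theorem diamondQ : diamondB 21 codeQ rankQ = true := by decide +kernel
theorem diamondR1 : diamondB 41 codeR1 rankR = true := by decide +kernel
theorem diamondR2 : diamondB 41 codeR2 rankR = true := by decide +kernel

theorem sectionsP : sectionsB 21 codeP codePT rankP 10 = true := by decide +kernel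
theorem sectionsQ : sectionsB 21 codeQ codeQT rankQ 10 = true := by decide +kernel
theorem sectionsR1 : sectionsB 41 codeR1 codeR1T rankR 10 = true := by decide +kernel
theorem sectionsR2 : sectionsB 41 codeR2 codeR2T rankR 10 = true := by decide +kernel

/-- All facets are isomorphic to `P`. -/
def facetsB (M : ℕ) (A B : List ℕ) : Bool :=
  chk 42 fun F => !(Nat.beq (dig rankR F) 4) ||
    isoB 41 M 21 codeP false F (tab A (F - 33)) (tab B (F - 33))

/-- All vertex-figures are isomorphic to `Q`. -/
def verticesB (M : ℕ) (A B : List ℕ) : Bool :=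
  chk 42 fun F => !(Nat.beq (dig rankR F) 1) ||
    isoB 41 M 21 codeQ true F (tab A (F - 1)) (tab B (F - 1))

theorem facetsR1 : facetsB codeR1 facA1 facB1 = true := by decide +kernel
theorem facetsR2 : facetsB codeR2 facA2 facB2 = true := by decide +kernel
theorem verticesR1 : verticesB codeR1 verA1 verB1 = true := by decide +kernel
theorem verticesR2 : verticesB codeR2 verA2 verB2 = true := by decide +kernel

/-- Number of elements below. -/
def lowB (k M x : ℕ) : ℕ := cnt (k + 1) fun y => leB k M y x

/-- Number of elements between. -/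
def midB (k M v x : ℕ) : ℕ := cnt (k + 1) fun y => leB k M v y && leB k M y x

/-- Digons. -/
def digonB (M x : ℕ) : Bool := Nat.beq (lowB 41 M x) 6

/-- Characterisation of the root edge of `Q`. -/
def condQB (y : ℕ) : Bool :=
  Nat.beq (lowB 21 codeQ y) 4 && chk 22 fun c =>
    !(leB 21 codeQ y c && Nat.blt 4 (lowB 21 codeQ c) && Nat.blt (lowB 21 codeQ c) 22) ||
      Nat.beq (lowB 21 codeQ c) 8

/-- The same condition in a vertex-figure. -/
def condRB (M v x : ℕ) : Bool :=
  Nat.beq (midB 41 M v x) 4 && chk 42 fun c =>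
    !(leB 41 M x c && Nat.blt 4 (midB 41 M v c) && Nat.blt (midB 41 M v c) 22) ||
      Nat.beq (midB 41 M v c) 8

theorem charP : (chk 22 fun y => Nat.beq (lowB 21 codeP y) 6 == Nat.beq y 20) = true := by
  decide +kernel

theorem charQ : (chk 22 fun y => condQB y == Nat.beq y 12) = true := by decide +kernel

/-- Characterisation of digons in vertex-figures. -/
def charRB (M : ℕ) : Bool :=
  chk 42 fun v => !(Nat.beq (dig rankR v) 1) || chk 42 fun x => !(leB 41 M v x) ||
    (condRB M v x == digonB M x)

theorem charR1 : charRB codeR1 = true := by decide +kernel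
theorem charR2 : charRB codeR2 = true := by decide +kernel

/-- Digons have rank 2. -/
def digRankB (M : ℕ) : Bool := chk 42 fun x => !(digonB M x) || Nat.beq (dig rankR x) 3

theorem digRankR1 : digRankB codeR1 = true := by decide +kernel
theorem digRankR2 : digRankB codeR2 = true := by decide +kernel

/-- Two edges of a 2-face sharing two vertices only occur in digons. -/
def projB (M : ℕ) : Bool :=
  chk 42 fun x => !(Nat.beq (dig rankR x) 3) || digonB M x ||
    chk 42 fun a => !(Nat.beq (dig rankR a) 2 && leB 41 M a x) ||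
      chk 42 fun b => !(Nat.beq (dig rankR b) 2 && leB 41 M b x) || Nat.beq a b ||
        chk 42 fun v => !(Nat.beq (dig rankR v) 1 && leB 41 M v a && leB 41 M v b) ||
          chk 42 fun w => !(Nat.beq (dig rankR w) 1 && leB 41 M w a && leB 41 M w b) || Nat.beq v w

theorem projR1 : projB codeR1 = true := by decide +kernel
theorem projR2 : projB codeR2 = true := by decide +kernel

/-- In a facet, a digon shares at most one edge with any other 2-face. -/
def liftB (M : ℕ) : Bool :=
  chk 42 fun F => !(Nat.beq (dig rankR F) 4) ||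
    chk 42 fun x => !(digonB M x && leB 41 M x F) ||
      chk 42 fun y => !(Nat.beq (dig rankR y) 3 && leB 41 M y F) || Nat.beq x y ||
        chk 42 fun a => !(Nat.beq (dig rankR a) 2 && leB 41 M a x && leB 41 M a y) ||
          chk 42 fun b => !(Nat.beq (dig rankR b) 2 && leB 41 M b x && leB 41 M b y) || Nat.beq a b

theorem liftR2 : liftB codeR2 = true := by decide +kernel

/-- The walk of length eight; `concl` is tested at the final 2-face. -/
def walkB (M v e x F : ℕ) (concl : ℕ → Bool) : Bool :=
  chk 42 fun x1 => !(Nat.beq (dig rankR x1) 3 && leB 41 M e x1 && leB 41 M x1 F) || Nat.beq x1 x ||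
  chk 42 fun e2 => !(Nat.beq (dig rankR e2) 2 && leB 41 M v e2 && leB 41 M e2 x1) || Nat.beq e2 e ||
  chk 42 fun v3 => !(Nat.beq (dig rankR v3) 1 && leB 41 M v3 e2) || Nat.beq v3 v ||
  chk 42 fun e4 => !(Nat.beq (dig rankR e4) 2 && leB 41 M v3 e4 && leB 41 M e4 x1) || Nat.beq e4 e2 ||
  chk 42 fun F5 => !(Nat.beq (dig rankR F5) 4 && leB 41 M x1 F5) || Nat.beq F5 F ||
  chk 42 fun x6 => !(Nat.beq (dig rankR x6) 3 && leB 41 M e4 x6 && leB 41 M x6 F5) || Nat.beq x6 x1 ||
  chk 42 fun F7 => !(Nat.beq (dig rankR F7) 4 && leB 41 M x6 F7) || Nat.beq F7 F5 ||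
  chk 42 fun x8 => !(Nat.beq (dig rankR x8) 3 && leB 41 M e4 x8 && leB 41 M x8 F7) || Nat.beq x8 x6 ||
    concl x8

/-- All flags `(v, e, x, F)` with `x` a digon satisfy `f`. -/
def allDigonB (M : ℕ) (f : ℕ → ℕ → ℕ → ℕ → Bool) : Bool :=
  chk 42 fun x => !(digonB M x) ||
    chk 42 fun F => !(Nat.beq (dig rankR F) 4 && leB 41 M x F) ||
      chk 42 fun e => !(Nat.beq (dig rankR e) 2 && leB 41 M e x) ||
        chk 42 fun v => !(Nat.beq (dig rankR v) 1 && leB 41 M v e) || f v e x F

/-- In `R1` the walk never joins two digons. -/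
theorem walkR1 : allDigonB codeR1 (fun v e x F => walkB codeR1 v e x F
    (fun x8 => !(digonB codeR1 x8))) = true := by decide +kernel

/-- In `R2` one of the two walks starting from a digon flag ends in a digon. -/
theorem walkR2 : allDigonB codeR2 (fun v e x F => chk 42 fun v' =>
    !(Nat.beq (dig rankR v') 1 && leB 41 codeR2 v' e) || Nat.beq v' v ||
    walkB codeR2 v e x F (fun x8 => walkB codeR2 v' e x F
      (fun x8' => digonB codeR2 x8 || digonB codeR2 x8'))) = true := by decide +kernel

/-- The automorphisms of `P` act transitively on the flags through the digon. -/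
theorem orbitPB : (chk 22 fun a => !(Nat.beq (dig rankP a) 1) || chk 22 fun b =>
    !(Nat.beq (dig rankP b) 2 && leB 21 codeP a b && leB 21 codeP b 20) || exq 4 fun i =>
      autB 21 codeP (tab autPA i) (tab autPB i) && Nat.beq (dig (tab autPA i) 1 % 22) a &&
      Nat.beq (dig (tab autPA i) 9 % 22) b) = true := by decide +kernel

/-- The automorphisms of `Q` act transitively on the flags through the root edge. -/
theorem orbitQB : (chk 22 fun a => !(Nat.beq (dig rankQ a) 1 && leB 21 codeQ a 12) ||
    chk 22 fun b =>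
    !(Nat.beq (dig rankQ b) 3 && leB 21 codeQ 12 b) || exq 4 fun i =>
      autB 21 codeQ (tab autQA i) (tab autQB i) && Nat.beq (dig (tab autQA i) 1 % 22) a &&
      Nat.beq (dig (tab autQA i) 13 % 22) b) = true := by decide +kernel

theorem chainPB : (leB 21 codeP 1 9 && leB 21 codeP 9 20 && leB 21 codeP 1 20 &&
  Nat.beq (dig rankP 20) 3) = true := by decide +kernel

theorem chainQB : (leB 21 codeQ 1 12 && leB 21 codeQ 12 13 && leB 21 codeQ 1 13 &&
  Nat.beq (dig rankQ 12) 2) = true := by decide +kernel

theorem facePB : (chk 22 fun y => !(Nat.beq (dig rankP y) 3) || Nat.beq y 20 ||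
    exq 22 fun v => Nat.beq (dig rankP v) 1 && exq 22 fun a => Nat.beq (dig rankP a) 2 &&
      exq 22 fun b => Nat.beq (dig rankP b) 2 && !(Nat.beq a b) && exq 22 fun y' =>
        Nat.beq (dig rankP y') 3 && !(Nat.beq y' y) && ltB 21 codeP v a && ltB 21 codeP v b &&
        ltB 21 codeP a y && ltB 21 codeP b y && ltB 21 codeP a y' && ltB 21 codeP b y') = true := by
  decide +kernel

theorem digonPB : (ltB 21 codeP 1 9 && ltB 21 codeP 1 10 && ltB 21 codeP 2 9 && ltB 21 codeP 2 10 &&
    ltB 21 codeP 9 20 && ltB 21 codeP 10 20) = true := by decide +kernel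

end Pool.Agent.Lib.MP_993768_co
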