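import Mathlib
import Pool.Agent.Lib.MP_993768_co.Checks

set_option autoImplicit false

/-!
The posets `P`, `Q`, `R1`, `R2` are polytopes, and `R1`, `R2` are rooted amalgamations.
-/

namespace Pool.Agent.Lib.MP_993768_co

open Order

instance factP : Fact (okB 21 codeP = true) := ⟨okP⟩
instance factQ : Fact (okB 21 codeQ = true) := ⟨okQ⟩
instance factR1 : Fact (okB 41 codeR1 = true) := ⟨okR1⟩
instance factR2 : Fact (okB 41 codeR2 = true) := ⟨okR2⟩

/-- The polytope `P`. -/
abbrev PP : Type := CT 21 codeP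
/-- The polytope `Q`. -/
abbrev QQ : Type := CT 21 codeQ

section general

variable {α β : Type*} [PartialOrder α] [PartialOrder β]

/-- Restriction of a flag to a lower section. -/
def restrictIic (Φ : Flag α) (F : α) (hF : F ∈ Φ) : Flag (Set.Iic F) where
  carrier := {x | (x : α) ∈ Φ}
  Chain' := by
    intro x hx y hy _
    exact Φ.le_or_le hx hy
  max_chain' := by
    intro s hs hsub
    apply Set.Subset.antisymm hsub
    intro y hy
    change (y : α) ∈ Φ
    rw [Flag.mem_iff_forall_le_or_ge]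
    intro b hb
    rcases Φ.le_or_le hb hF with h | h
    · have hb' : (⟨b, h⟩ : Set.Iic F) ∈ s := hsub hb
      rcases hs.total hy hb' with h1 | h1
      · exact Or.inl h1
      · exact Or.inr h1
    · exact Or.inl (le_trans y.2 h)

lemma mem_restrictIic {Φ : Flag α} {F : α} {hF : F ∈ Φ} {x : Set.Iic F} :
    x ∈ restrictIic Φ F hF ↔ (x : α) ∈ Φ := Iff.rfl

/-- Restriction of a flag to an upper section. -/
def restrictIci (Φ : Flag α) (F : α) (hF : F ∈ Φ) : Flag (Set.Ici F) where
  carrier := {x | (x : α) ∈ Φ}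
  Chain' := by
    intro x hx y hy _
    exact Φ.le_or_le hx hy
  max_chain' := by
    intro s hs hsub
    apply Set.Subset.antisymm hsub
    intro y hy
    change (y : α) ∈ Φ
    rw [Flag.mem_iff_forall_le_or_ge]
    intro b hb
    rcases Φ.le_or_le hF hb with h | h
    · have hb' : (⟨b, h⟩ : Set.Ici F) ∈ s := hsub hb
      rcases hs.total hy hb' with h1 | h1
      · exact Or.inl h1
      · exact Or.inr h1
    · exact Or.inr (le_trans h y.2)

lemma mem_restrictIci {Φ : Flag α} {F : α} {hF : F ∈ Φ} {x : Set.Ici F} :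
    x ∈ restrictIci Φ F hF ↔ (x : α) ∈ Φ := Iff.rfl

lemma mem_map_iff (g : α ≃o β) (Φ : Flag α) (x : α) : g x ∈ Flag.map g Φ ↔ x ∈ Φ := by
  rw [← SetLike.mem_coe, Flag.coe_map]
  constructor
  · rintro ⟨y, hy, hxy⟩
    rw [← g.injective hxy]; exact hy
  · intro h
    exact ⟨x, h, rfl⟩

lemma ncard_Iic_section {F : α} (g : Set.Iic F ≃o β) (x : Set.Iic F) :
    (Set.Iic (x : α)).ncard = (Set.Iic (g x)).ncard := by
  have h : Set.Iic (x : α) = (fun y : β => ((g.symm y : Set.Iic F) : α)) '' Set.Iic (g x) := by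
    ext y
    constructor
    · intro hy
      have hyF : y ≤ F := le_trans hy x.2
      refine ⟨g ⟨y, hyF⟩, ?_, ?_⟩
      · rw [Set.mem_Iic, g.le_iff_le]; exact hy
      · simp
    · rintro ⟨z, hz, rfl⟩
      have h1 : g.symm z ≤ x := by
        rw [← g.le_iff_le, g.apply_symm_apply]; exact hz
      exact h1
  rw [h, Set.ncard_image_of_injective]
  intro a b hab
  exact g.symm.injective (Subtype.ext hab)

lemma ncard_Icc_section {v : α} (g : Set.Ici v ≃o β) (x : Set.Ici v) :
    (Set.Icc v (x : α)).ncard = (Set.Iic (g x)).ncard := by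
  have h : Set.Icc v (x : α) = (fun y : β => ((g.symm y : Set.Ici v) : α)) '' Set.Iic (g x) := by
    ext y
    constructor
    · rintro ⟨hy1, hy2⟩
      refine ⟨g ⟨y, hy1⟩, ?_, ?_⟩
      · rw [Set.mem_Iic, g.le_iff_le]; exact hy2
      · simp
    · rintro ⟨z, hz, rfl⟩
      have h1 : g.symm z ≤ x := by
        rw [← g.le_iff_le, g.apply_symm_apply]; exact hz
      exact ⟨(g.symm z).2, h1⟩
  rw [h, Set.ncard_image_of_injective]
  intro a b hab
  exact g.symm.injective (Subtype.ext hab)

lemma ncard_Iic_iso (g : α ≃o β) (x : α) : (Set.Iic (g x)).ncard = (Set.Iic x).ncard := by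
  rw [← g.image_Iic, Set.ncard_image_of_injective _ g.injective]

end general

lemma ncard_Iic_coded {k M : ℕ} [Fact (okB k M = true)] (x : CT k M) :
    (Set.Iic x).ncard = lowB k M x.ix := by
  unfold lowB
  rw [← ncard_coded (M := M)]
  rfl

lemma ncard_Icc_coded {k M : ℕ} [Fact (okB k M = true)] (v x : CT k M) :
    (Set.Icc v x).ncard = midB k M v.ix x.ix := by
  unfold midB
  rw [← ncard_coded (M := M)]
  congr 1
  ext w
  simp only [Set.mem_Icc, Set.mem_ofPred_eq, Bool.and_eq_true, CT.le_iff]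

/-- The digon of `P`. -/
def dP : PP := CT.mk' 21 codeP 20 (by norm_num)

/-- The root edge of `Q`. -/
def dQ : QQ := CT.mk' 21 codeQ 12 (by norm_num)

/-- The root orbit of `P`: flags through the digon. -/
def O1 : Set (Flag PP) := {Ψ | dP ∈ Ψ}

/-- The root orbit of `Q`: flags through the root edge. -/
def O2 : Set (Flag QQ) := {Ψ | dQ ∈ Ψ}

lemma charP' (y : PP) : (Set.Iic y).ncard = 6 ↔ y = dP := by
  have h := eq_of_beq (chk_spec charP y.ix_lt)
  rw [ncard_Iic_coded, ← CT.ix_inj]
  constructor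
  · intro h1
    rw [h1, Nat.beq_refl] at h
    exact Nat.eq_of_beq_eq_true h.symm
  · intro h1
    have h2 : Nat.beq y.ix 20 = true := by rw [h1]; rfl
    rw [h2] at h
    exact Nat.eq_of_beq_eq_true h

/-- Intrinsic characterisation of the root edge of `Q`. -/
def CondQ (y : QQ) : Prop :=
  (Set.Iic y).ncard = 4 ∧ ∀ c, y ≤ c → 4 < (Set.Iic c).ncard → (Set.Iic c).ncard < 22 →
    (Set.Iic c).ncard = 8

lemma condQ_iff (y : QQ) : CondQ y ↔ condQB y.ix = true := by
  unfold CondQ condQB
  rw [Bool.and_eq_true, ncard_Iic_coded]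
  constructor
  · rintro ⟨h1, h2⟩
    refine ⟨by rw [h1]; rfl, ?_⟩
    by_contra hcon
    rw [Bool.not_eq_true] at hcon
    have : ∀ n : ℕ, n ≤ 22 → (chk n fun c =>
        !(leB 21 codeQ y.ix c && Nat.blt 4 (lowB 21 codeQ c) && Nat.blt (lowB 21 codeQ c) 22) ||
          Nat.beq (lowB 21 codeQ c) 8) = true := by
      intro n
      induction n with
      | zero => intro _; rfl
      | succ n ih =>
        intro hn
        rw [chk_succ, Bool.and_eq_true]
        refine ⟨?_, ih (by omega)⟩
        have h3 := h2 (CT.mk' 21 codeQ n (by omega))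
        rw [ncard_Iic_coded, CT.ix_mk'] at h3
        rw [Bool.or_eq_true, Bool.not_eq_true']
        by_cases h4 : leB 21 codeQ y.ix n = true
        · by_cases h5 : 4 < lowB 21 codeQ n
          · by_cases h6 : lowB 21 codeQ n < 22
            · right
              rw [h3 h4 h5 h6]; rfl
            · left
              have : Nat.blt (lowB 21 codeQ n) 22 = false := by
                rw [← Bool.not_eq_true, Nat.blt_eq]; exact h6
              rw [this, Bool.and_false]
          · left
            have : Nat.blt 4 (lowB 21 codeQ n) = false := by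
              rw [← Bool.not_eq_true, Nat.blt_eq]; exact h5
            rw [this, Bool.and_false, Bool.false_and]
        · left
          rw [Bool.not_eq_true] at h4
          rw [h4, Bool.false_and, Bool.false_and]
    rw [this 22 le_rfl] at hcon
    exact absurd hcon (by decide)
  · rintro ⟨h1, h2⟩
    refine ⟨Nat.eq_of_beq_eq_true h1, fun c hc h3 h4 => ?_⟩
    rw [ncard_Iic_coded] at h3 h4 ⊢
    have h5 := chk_spec h2 c.ix_lt
    rw [Bool.or_eq_true, Bool.not_eq_true'] at h5
    rcases h5 with h5 | h5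
    · rw [CT.le_iff.1 hc, Eq.mpr Nat.blt_eq h3, Eq.mpr Nat.blt_eq h4] at h5
      exact absurd h5 (by decide)
    · exact Nat.eq_of_beq_eq_true h5

lemma charQ' (y : QQ) : CondQ y ↔ y = dQ := by
  have h := eq_of_beq (chk_spec charQ y.ix_lt)
  rw [condQ_iff, ← CT.ix_inj, h]
  constructor
  · intro h1; exact Nat.eq_of_beq_eq_true h1
  · intro h1; rw [h1]; rfl

lemma CondQ.map (g : QQ ≃o QQ) {y : QQ} (h : CondQ y) : CondQ (g y) := by
  refine ⟨by rw [ncard_Iic_iso]; exact h.1, fun c hc => ?_⟩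
  have h1 : y ≤ g.symm c := by rw [← g.le_iff_le, g.apply_symm_apply]; exact hc
  have h2 := h.2 (g.symm c) h1
  rw [ncard_Iic_iso] at h2
  exact h2

lemma gP : Graded (fun a : PP => dig rankP a.ix) 3 := graded_of_check gradedP
lemma gQ : Graded (fun a : QQ => dig rankQ a.ix) 3 := graded_of_check gradedQ

lemma polyP : IsPolytope 3 PP :=
  gP.isPolytope (sections_of_check sectionsP) (diamond_of_check diamondP)

lemma polyQ : IsPolytope 3 QQ :=
  gQ.isPolytope (sections_of_check sectionsQ) (diamond_of_check diamondQ)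

lemma flag_eq_of_common {α : Type*} [PartialOrder α] [BoundedOrder α] {rk : α → ℕ} {n : ℕ}
    (G : Graded rk n) {Φ Ψ : Flag α} (h : ∀ i, i ≤ n + 1 → ∃ y, y ∈ Φ ∧ y ∈ Ψ ∧ rk y = i) :
    Φ = Ψ := by
  apply flag_eq_of_subset
  intro x hx
  obtain ⟨y, hy1, hy2, hy3⟩ := h (rk x) (G.rk_le x)
  rw [G.eq_of_mem_of_rk hx hy1 hy3.symm]
  exact hy2

lemma orbitP : IsFlagOrbit PP O1 := by
  let a0 : PP := CT.mk' 21 codeP 1 (by norm_num)
  let b0 : PP := CT.mk' 21 codeP 9 (by norm_num)
  have hc := chainPB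
  rw [Bool.and_eq_true, Bool.and_eq_true, Bool.and_eq_true] at hc
  obtain ⟨⟨⟨h1, h2⟩, h3⟩, h4⟩ := hc
  have hab : a0 ≤ b0 := h1
  have hbd : b0 ≤ dP := h2
  have had : a0 ≤ dP := h3
  have hchain : IsChain (· ≤ ·) ({a0, b0, dP} : Set PP) := by
    intro x hx y hy _
    simp only [Set.mem_insert_iff, Set.mem_singleton_iff] at hx hy
    rcases hx with rfl | rfl | rfl <;> rcases hy with rfl | rfl | rfl <;>
      first
        | exact Or.inl le_rfl
        | exact Or.inl hab
        | exact Or.inr hab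
        | exact Or.inl hbd
        | exact Or.inr hbd
        | exact Or.inl had
        | exact Or.inr had
  obtain ⟨Φ₀, hΦ₀⟩ := hchain.exists_subset_flag
  refine ⟨Φ₀, ?_⟩
  ext Φ
  constructor
  · intro hΦ
    have hd : dP ∈ Φ := hΦ
    obtain ⟨a, ha, hra⟩ := gP.exists_rk Φ (i := 1) (by norm_num)
    obtain ⟨b, hb, hrb⟩ := gP.exists_rk Φ (i := 2) (by norm_num)
    have hrd : dig rankP dP.ix = 3 := Nat.eq_of_beq_eq_true h4
    have hcmp : ∀ {x y : PP}, x ∈ Φ → y ∈ Φ → dig rankP x.ix < dig rankP y.ix → x ≤ y := by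
      intro x y hx hy hlt
      rcases Φ.le_or_le hx hy with h | h
      · exact h
      · have := gP.le_of_le h
        omega
    have hra' : dig rankP a.ix = 1 := hra
    have hrb' : dig rankP b.ix = 2 := hrb
    have hab' : a ≤ b := hcmp ha hb (by omega)
    have hbd' : b ≤ dP := hcmp hb hd (by omega)
    have h5 := chk_spec orbitPB a.ix_lt
    rw [hra', Nat.beq_refl, Bool.not_true, Bool.false_or] at h5
    have h6 := chk_spec h5 b.ix_lt
    have hbd'' : leB 21 codeP b.ix 20 = true := hbd'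
    rw [hrb', Nat.beq_refl, CT.le_iff.1 hab', hbd'', Bool.and_self, Bool.and_self,
      Bool.not_true, Bool.false_or] at h6
    obtain ⟨i, _, hi⟩ := exq_spec h6
    rw [Bool.and_eq_true, Bool.and_eq_true] at hi
    obtain ⟨⟨hi1, hi2⟩, hi3⟩ := hi
    obtain ⟨g, hg⟩ := aut_of_check hi1
    have hga : g a0 = a := by
      rw [hg]; exact CT.ext (Nat.eq_of_beq_eq_true hi2)
    have hgb : g b0 = b := by
      rw [hg]; exact CT.ext (Nat.eq_of_beq_eq_true hi3)
    have hgd : g dP = dP := by
      rw [← charP', ncard_Iic_iso, charP']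
    refine ⟨g, ?_⟩
    apply flag_eq_of_common gP
    intro j hj
    have hj' : j = 0 ∨ j = 1 ∨ j = 2 ∨ j = 3 ∨ j = 4 := by omega
    rcases hj' with rfl | rfl | rfl | rfl | rfl
    · exact ⟨⊥, Flag.bot_mem _, Flag.bot_mem _, gP.bot⟩
    · refine ⟨a, ?_, ha, hra⟩
      rw [← hga, mem_map_iff]; exact hΦ₀ (by simp)
    · refine ⟨b, ?_, hb, hrb⟩
      rw [← hgb, mem_map_iff]; exact hΦ₀ (by simp)
    · refine ⟨dP, ?_, hd, hrd⟩
      rw [← hgd, mem_map_iff]; exact hΦ₀ (by simp)
    · exact ⟨⊤, Flag.top_mem _, Flag.top_mem _, gP.top⟩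
  · rintro ⟨g, rfl⟩
    have hgd : g dP = dP := by
      rw [← charP', ncard_Iic_iso, charP']
    change dP ∈ Flag.map g Φ₀
    rw [← hgd, mem_map_iff]
    exact hΦ₀ (by simp)

lemma orbitQ : IsFlagOrbit QQ O2 := by
  let a0 : QQ := CT.mk' 21 codeQ 1 (by norm_num)
  let b0 : QQ := CT.mk' 21 codeQ 13 (by norm_num)
  have hc := chainQB
  rw [Bool.and_eq_true, Bool.and_eq_true, Bool.and_eq_true] at hc
  obtain ⟨⟨⟨h1, h2⟩, h3⟩, h4⟩ := hc
  have had : a0 ≤ dQ := h1
  have hdb : dQ ≤ b0 := h2
  have hab : a0 ≤ b0 := h3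
  have hchain : IsChain (· ≤ ·) ({a0, b0, dQ} : Set QQ) := by
    intro x hx y hy _
    simp only [Set.mem_insert_iff, Set.mem_singleton_iff] at hx hy
    rcases hx with rfl | rfl | rfl <;> rcases hy with rfl | rfl | rfl <;>
      first
        | exact Or.inl le_rfl
        | exact Or.inl hab
        | exact Or.inr hab
        | exact Or.inl hdb
        | exact Or.inr hdb
        | exact Or.inl had
        | exact Or.inr had
  obtain ⟨Φ₀, hΦ₀⟩ := hchain.exists_subset_flag
  refine ⟨Φ₀, ?_⟩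
  ext Φ
  constructor
  · intro hΦ
    have hd : dQ ∈ Φ := hΦ
    obtain ⟨a, ha, hra⟩ := gQ.exists_rk Φ (i := 1) (by norm_num)
    obtain ⟨b, hb, hrb⟩ := gQ.exists_rk Φ (i := 3) (by norm_num)
    have hrd : dig rankQ dQ.ix = 2 := Nat.eq_of_beq_eq_true h4
    have hcmp : ∀ {x y : QQ}, x ∈ Φ → y ∈ Φ → dig rankQ x.ix < dig rankQ y.ix → x ≤ y := by
      intro x y hx hy hlt
      rcases Φ.le_or_le hx hy with h | h
      · exact h
      · have := gQ.le_of_le h
        omega
    have hra' : dig rankQ a.ix = 1 := hra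
    have hrb' : dig rankQ b.ix = 3 := hrb
    have had' : leB 21 codeQ a.ix 12 = true := hcmp ha hd (by omega)
    have hdb' : leB 21 codeQ 12 b.ix = true := hcmp hd hb (by omega)
    have h5 := chk_spec orbitQB a.ix_lt
    rw [hra', Nat.beq_refl, had', Bool.and_self, Bool.not_true, Bool.false_or] at h5
    have h6 := chk_spec h5 b.ix_lt
    rw [hrb', Nat.beq_refl, hdb', Bool.and_self, Bool.not_true, Bool.false_or] at h6
    obtain ⟨i, _, hi⟩ := exq_spec h6
    rw [Bool.and_eq_true, Bool.and_eq_true] at hi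
    obtain ⟨⟨hi1, hi2⟩, hi3⟩ := hi
    obtain ⟨g, hg⟩ := aut_of_check hi1
    have hga : g a0 = a := by
      rw [hg]; exact CT.ext (Nat.eq_of_beq_eq_true hi2)
    have hgb : g b0 = b := by
      rw [hg]; exact CT.ext (Nat.eq_of_beq_eq_true hi3)
    have hgd : g dQ = dQ := by
      rw [← charQ']; exact CondQ.map g ((charQ' dQ).2 rfl)
    refine ⟨g, ?_⟩
    apply flag_eq_of_common gQ
    intro j hj
    have hj' : j = 0 ∨ j = 1 ∨ j = 2 ∨ j = 3 ∨ j = 4 := by omega
    rcases hj' with rfl | rfl | rfl | rfl | rfl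
    · exact ⟨⊥, Flag.bot_mem _, Flag.bot_mem _, gQ.bot⟩
    · refine ⟨a, ?_, ha, hra⟩
      rw [← hga, mem_map_iff]; exact hΦ₀ (by simp)
    · refine ⟨dQ, ?_, hd, hrd⟩
      rw [← hgd, mem_map_iff]; exact hΦ₀ (by simp)
    · refine ⟨b, ?_, hb, hrb⟩
      rw [← hgb, mem_map_iff]; exact hΦ₀ (by simp)
    · exact ⟨⊤, Flag.top_mem _, Flag.top_mem _, gQ.top⟩
  · rintro ⟨g, rfl⟩
    have hgd : g dQ = dQ := by
      rw [← charQ']; exact CondQ.map g ((charQ' dQ).2 rfl)
    change dQ ∈ Flag.map g Φ₀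
    rw [← hgd, mem_map_iff]
    exact hΦ₀ (by simp)

section R

variable {M : ℕ} [hok : Fact (okB 41 M = true)]

/-- Intrinsic characterisation of root 2-faces in vertex-figures. -/
def CondR (v x : CT 41 M) : Prop :=
  (Set.Icc v x).ncard = 4 ∧ ∀ c, x ≤ c → 4 < (Set.Icc v c).ncard → (Set.Icc v c).ncard < 22 →
    (Set.Icc v c).ncard = 8

lemma condR_iff (v x : CT 41 M) : CondR v x ↔ condRB M v.ix x.ix = true := by
  unfold CondR condRB
  rw [Bool.and_eq_true, ncard_Icc_coded]
  constructor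
  · rintro ⟨h1, h2⟩
    refine ⟨by rw [h1]; rfl, ?_⟩
    have : ∀ n : ℕ, n ≤ 42 → (chk n fun c =>
        !(leB 41 M x.ix c && Nat.blt 4 (midB 41 M v.ix c) && Nat.blt (midB 41 M v.ix c) 22) ||
          Nat.beq (midB 41 M v.ix c) 8) = true := by
      intro n
      induction n with
      | zero => intro _; rfl
      | succ n ih =>
        intro hn
        rw [chk_succ, Bool.and_eq_true]
        refine ⟨?_, ih (by omega)⟩
        have h3 := h2 (CT.mk' 41 M n (by omega))
        rw [ncard_Icc_coded, CT.ix_mk'] at h3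
        rw [Bool.or_eq_true, Bool.not_eq_true']
        by_cases h4 : leB 41 M x.ix n = true
        · by_cases h5 : 4 < midB 41 M v.ix n
          · by_cases h6 : midB 41 M v.ix n < 22
            · right
              rw [h3 h4 h5 h6]; rfl
            · left
              have : Nat.blt (midB 41 M v.ix n) 22 = false := by
                rw [← Bool.not_eq_true, Nat.blt_eq]; exact h6
              rw [this, Bool.and_false]
          · left
            have : Nat.blt 4 (midB 41 M v.ix n) = false := by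
              rw [← Bool.not_eq_true, Nat.blt_eq]; exact h5
            rw [this, Bool.and_false, Bool.false_and]
        · left
          rw [Bool.not_eq_true] at h4
          rw [h4, Bool.false_and, Bool.false_and]
    exact this 42 le_rfl
  · rintro ⟨h1, h2⟩
    refine ⟨Nat.eq_of_beq_eq_true h1, fun c hc h3 h4 => ?_⟩
    rw [ncard_Icc_coded] at h3 h4 ⊢
    have h5 := chk_spec h2 c.ix_lt
    rw [Bool.or_eq_true, Bool.not_eq_true'] at h5
    rcases h5 with h5 | h5
    · rw [CT.le_iff.1 hc, Eq.mpr Nat.blt_eq h3, Eq.mpr Nat.blt_eq h4] at h5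
      exact absurd h5 (by decide)
    · exact Nat.eq_of_beq_eq_true h5

lemma condR_transfer {v : CT 41 M} (g : Set.Ici v ≃o QQ) (x : Set.Ici v) :
    CondR v (x : CT 41 M) ↔ CondQ (g x) := by
  unfold CondR CondQ
  rw [ncard_Icc_section g x]
  constructor
  · rintro ⟨h1, h2⟩
    refine ⟨h1, fun c hc => ?_⟩
    have h3 : x ≤ g.symm c := by rw [← g.le_iff_le, g.apply_symm_apply]; exact hc
    have h4 := h2 (g.symm c) h3
    rw [ncard_Icc_section g (g.symm c), g.apply_symm_apply] at h4
    exact h4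
  · rintro ⟨h1, h2⟩
    refine ⟨h1, fun c hc => ?_⟩
    have hvc : v ≤ c := le_trans x.2 hc
    have h3 : g x ≤ g ⟨c, hvc⟩ := by rw [g.le_iff_le]; exact hc
    have h4 := h2 _ h3
    rw [← ncard_Icc_section g ⟨c, hvc⟩] at h4
    exact h4

lemma digon_iff (x : CT 41 M) : digonB M x.ix = true ↔ (Set.Iic x).ncard = 6 := by
  rw [ncard_Iic_coded, digonB]
  constructor
  · intro h; exact Nat.eq_of_beq_eq_true h
  · intro h; rw [h]; rfl

variable (hg : gradedB 41 M rankR 4 = true)
include hg

lemma facetIn_iff (hiso : ∀ F : CT 41 M, IsCoatom F → Nonempty (Set.Iic F ≃o PP))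
    (hdr : digRankB M = true) (Φ : Flag (CT 41 M)) :
    FacetIn O1 Φ ↔ ∃ x ∈ Φ, (Set.Iic x).ncard = 6 := by
  have G : Graded (fun a : CT 41 M => dig rankR a.ix) 4 := graded_of_check hg
  constructor
  · rintro ⟨F, hF, hco, g, Ψ, hΨ, hx⟩
    refine ⟨(g.symm dP : Set.Iic F), (hx _).1 (by rw [g.apply_symm_apply]; exact hΨ), ?_⟩
    rw [ncard_Iic_section g, g.apply_symm_apply, charP']
  · rintro ⟨x, hx, hx6⟩
    obtain ⟨F, hF, hrF⟩ := G.exists_rk Φ (i := 4) (by norm_num)
    have hrF' : dig rankR F.ix = 4 := hrF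
    have hrx : dig rankR x.ix = 3 := by
      have h := chk_spec hdr x.ix_lt
      rw [(digon_iff x).2 hx6, Bool.not_true, Bool.false_or] at h
      exact Nat.eq_of_beq_eq_true h
    have hxF : x ≤ F := by
      rcases Φ.le_or_le hx hF with h | h
      · exact h
      · have := G.le_of_le h
        omega
    have hco : IsCoatom F := G.isCoatom_iff.2 hrF
    obtain ⟨g⟩ := hiso F hco
    refine ⟨F, hF, hco, g, Flag.map g (restrictIic Φ F hF), ?_, ?_⟩
    · have h1 : g ⟨x, hxF⟩ = dP := by
        rw [← charP', ← ncard_Iic_section g]; exact hx6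
      change dP ∈ Flag.map g (restrictIic Φ F hF)
      rw [← h1, mem_map_iff]
      exact hx
    · intro y
      rw [mem_map_iff]
      exact Iff.rfl

lemma vertexFigIn_iff (hiso : ∀ v : CT 41 M, IsAtom v → Nonempty (Set.Ici v ≃o QQ))
    (hchar : charRB M = true) (hdr : digRankB M = true) (Φ : Flag (CT 41 M)) :
    VertexFigIn O2 Φ ↔ ∃ x ∈ Φ, (Set.Iic x).ncard = 6 := by
  have G : Graded (fun a : CT 41 M => dig rankR a.ix) 4 := graded_of_check hg
  have hchar' : ∀ v x : CT 41 M, IsAtom v → v ≤ x → (CondR v x ↔ (Set.Iic x).ncard = 6) := by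
    intro v x hv hvx
    have hrv : dig rankR v.ix = 1 := G.isAtom_iff.1 hv
    have h := chk_spec hchar v.ix_lt
    rw [hrv, Nat.beq_refl, Bool.not_true, Bool.false_or] at h
    have h2 := chk_spec h x.ix_lt
    rw [CT.le_iff.1 hvx, Bool.not_true, Bool.false_or] at h2
    rw [condR_iff, ← digon_iff, eq_of_beq h2]
  constructor
  · rintro ⟨v, hv, hat, g, Ψ, hΨ, hx⟩
    refine ⟨(g.symm dQ : Set.Ici v), (hx _).1 (by rw [g.apply_symm_apply]; exact hΨ), ?_⟩
    rw [← hchar' v _ hat (g.symm dQ).2, condR_transfer g, g.apply_symm_apply, charQ']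
  · rintro ⟨x, hx, hx6⟩
    obtain ⟨v, hv, hrv⟩ := G.exists_rk Φ (i := 1) (by norm_num)
    have hrv' : dig rankR v.ix = 1 := hrv
    have hrx : dig rankR x.ix = 3 := by
      have h := chk_spec hdr x.ix_lt
      rw [(digon_iff x).2 hx6, Bool.not_true, Bool.false_or] at h
      exact Nat.eq_of_beq_eq_true h
    have hvx : v ≤ x := by
      rcases Φ.le_or_le hv hx with h | h
      · exact h
      · have := G.le_of_le h
        omega
    have hat : IsAtom v := G.isAtom_iff.2 hrv
    obtain ⟨g⟩ := hiso v hat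
    refine ⟨v, hv, hat, g, Flag.map g (restrictIci Φ v hv), ?_, ?_⟩
    · have h1 : g ⟨x, hvx⟩ = dQ := by
        rw [← charQ', ← condR_transfer g, hchar' v x hat hvx]; exact hx6
      change dQ ∈ Flag.map g (restrictIci Φ v hv)
      rw [← h1, mem_map_iff]
      exact hx
    · intro y
      rw [mem_map_iff]
      exact Iff.rfl

lemma rooted_of_checks {MT : ℕ} {A B A' B' : List ℕ}
    (hd : diamondB 41 M rankR = true) (hs : sectionsB 41 M MT rankR 10 = true)
    (hf : facetsB M A B = true) (hv : verticesB M A' B' = true)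
    (hchar : charRB M = true) (hdr : digRankB M = true) :
    IsRootedAmalgamation 4 O1 O2 (CT 41 M) := by
  have G : Graded (fun a : CT 41 M => dig rankR a.ix) 4 := graded_of_check hg
  have hfac : ∀ F : CT 41 M, IsCoatom F → Nonempty (Set.Iic F ≃o PP) := by
    intro F hF
    have hrF : dig rankR F.ix = 4 := G.isCoatom_iff.1 hF
    have h := chk_spec hf F.ix_lt
    rw [hrF, Nat.beq_refl, Bool.not_true, Bool.false_or] at h
    exact iso_of_check F.ix_lt h
  have hver : ∀ v : CT 41 M, IsAtom v → Nonempty (Set.Ici v ≃o QQ) := by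
    intro v hv'
    have hrv : dig rankR v.ix = 1 := G.isAtom_iff.1 hv'
    have h := chk_spec hv v.ix_lt
    rw [hrv, Nat.beq_refl, Bool.not_true, Bool.false_or] at h
    exact iso_of_check' v.ix_lt h
  exact {
    polytope := G.isPolytope (sections_of_check hs) (diamond_of_check hd)
    facets := hfac
    vertexFigures := hver
    rooted := fun Φ => by
      rw [facetIn_iff hg hfac hdr, vertexFigIn_iff hg hver hchar hdr] }

end R

/-- The first amalgamation. -/
abbrev RR1 : Type := CT 41 codeR1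
/-- The second amalgamation. -/
abbrev RR2 : Type := CT 41 codeR2

theorem rooted1 : IsRootedAmalgamation 4 O1 O2 RR1 :=
  rooted_of_checks gradedR1 diamondR1 sectionsR1 facetsR1 verticesR1 charR1 digRankR1

theorem rooted2 : IsRootedAmalgamation 4 O1 O2 RR2 :=
  rooted_of_checks gradedR2 diamondR2 sectionsR2 facetsR2 verticesR2 charR2 digRankR2

end Pool.Agent.Lib.MP_993768_co
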