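import Mathlib

set_option autoImplicit false

/-!
Definitions: abstract polytopes, rooted amalgamations, covers.

A partially ordered set with least and greatest element is used for the face poset of a polytope;
flags are Mathlib's `Flag` (maximal chains).  The rank of a face `x` (with the convention that the
least face has rank `-1`) is `Order.height x - 1`.
-/

namespace Pool.Agent.Lib.MP_993768_co

/-- Two flags are adjacent when they differ in exactly one face. -/
def FlagAdj {α : Type*} [PartialOrder α] (Φ Ψ : Flag α) : Prop :=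
  ∃ x ∈ Φ, ∃ y ∈ Ψ, x ≠ y ∧ (Φ : Set α) \ {x} = (Ψ : Set α) \ {y}

/-- Abstract polytopes of rank `n`: posets with a least and a greatest face in which
every flag has exactly `n + 2` faces, which are strongly flag-connected (any two flags are joined
by a sequence of successively adjacent flags, all containing the intersection of the two),
and satisfy the diamond condition. -/
structure IsPolytope (n : ℕ) (α : Type*) [PartialOrder α] [BoundedOrder α] : Prop where
  flag_card : ∀ Φ : Flag α, (Φ : Set α).ncard = n + 2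
  flag_connected : ∀ Φ Ψ : Flag α,
    Relation.ReflTransGen (fun A B : Flag α => FlagAdj A B ∧ (Φ : Set α) ∩ Ψ ⊆ B) Φ Ψ
  diamond : ∀ x y z : α, x ⋖ y → y ⋖ z → {w | x < w ∧ w < z}.ncard = 2

/-- `O` is an orbit of the automorphism group of `P` on flags. -/
def IsFlagOrbit (P : Type*) [PartialOrder P] (O : Set (Flag P)) : Prop :=
  ∃ Φ₀ : Flag P, O = {Φ | ∃ g : P ≃o P, Flag.map g Φ₀ = Φ}

/-- The restriction of the flag `Φ` of `R` to its facet lies in `O`, after identifying the facet
with `P` by an isomorphism. -/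
def FacetIn {R P : Type*} [PartialOrder R] [BoundedOrder R] [PartialOrder P]
    (O : Set (Flag P)) (Φ : Flag R) : Prop :=
  ∃ F ∈ Φ, IsCoatom F ∧ ∃ g : Set.Iic F ≃o P, ∃ Ψ ∈ O, ∀ x : Set.Iic F, g x ∈ Ψ ↔ (x : R) ∈ Φ

/-- The restriction of the flag `Φ` of `R` to its vertex-figure lies in `O`, after identifying
the vertex-figure with `Q` by an isomorphism. -/
def VertexFigIn {R Q : Type*} [PartialOrder R] [BoundedOrder R] [PartialOrder Q]
    (O : Set (Flag Q)) (Φ : Flag R) : Prop :=
  ∃ v ∈ Φ, IsAtom v ∧ ∃ g : Set.Ici v ≃o Q, ∃ Ψ ∈ O, ∀ x : Set.Ici v, g x ∈ Ψ ↔ (x : R) ∈ Φ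

/-- `R` is an amalgamation of rank `n` of `P` and `Q`: a polytope of rank `n` all of whose facets
are isomorphic to `P` and all of whose vertex-figures are isomorphic to `Q`. -/
structure IsAmalgamation (n : ℕ) (P Q R : Type*) [PartialOrder P] [PartialOrder Q]
    [PartialOrder R] [BoundedOrder R] : Prop where
  polytope : IsPolytope n R
  facets : ∀ F : R, IsCoatom F → Nonempty (Set.Iic F ≃o P)
  vertexFigures : ∀ v : R, IsAtom v → Nonempty (Set.Ici v ≃o Q)

/-- Amalgamations rooted at `(O₁, O₂)`. -/
structure IsRootedAmalgamation (n : ℕ) {P Q : Type*} [PartialOrder P] [PartialOrder Q]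
    (O₁ : Set (Flag P)) (O₂ : Set (Flag Q)) (R : Type*) [PartialOrder R] [BoundedOrder R] : Prop
    extends IsAmalgamation n P Q R where
  rooted : ∀ Φ : Flag R, FacetIn O₁ Φ ↔ VertexFigIn O₂ Φ

/-- `U` covers `R`: there is a surjection which preserves rank and incidence and maps adjacent
flags to adjacent flags. -/
def Covers (U R : Type*) [PartialOrder U] [PartialOrder R] : Prop :=
  ∃ f : U → R, Function.Surjective f ∧ Monotone f ∧ (∀ x, Order.height (f x) = Order.height x) ∧
    ∀ Φ Ψ : Flag U, FlagAdj Φ Ψ →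
      ∃ Φ' Ψ' : Flag R, (Φ' : Set R) = f '' Φ ∧ (Ψ' : Set R) = f '' Ψ ∧ FlagAdj Φ' Ψ'

end Pool.Agent.Lib.MP_993768_co
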