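import Mathlib
import Pool.Agent.Lib.MP_993768_co.Defs

set_option autoImplicit false

/-!
General lemmas on graded posets: heights, flags, strong flag-connectedness.
-/

namespace Pool.Agent.Lib.MP_993768_co

open Order

variable {α : Type*} [PartialOrder α] [BoundedOrder α]

/-- `rk` is a rank function with values `0, ..., n + 1`. -/
structure Graded (rk : α → ℕ) (n : ℕ) : Prop where
  bot : rk ⊥ = 0
  top : rk ⊤ = n + 1
  lt : ∀ x y, x < y → rk x < rk y
  fill : ∀ x y, x < y → rk x + 1 < rk y → ∃ z, x < z ∧ z < y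

namespace Graded

variable {rk : α → ℕ} {n : ℕ} (G : Graded rk n)
include G

lemma le_of_le {x y : α} (h : x ≤ y) : rk x ≤ rk y := by
  rcases h.eq_or_lt with rfl | h
  · exact le_rfl
  · exact (G.lt _ _ h).le

lemma rk_le (x : α) : rk x ≤ n + 1 := by
  rw [← G.top]; exact G.le_of_le le_top

lemma exists_pred {x y : α} (h : x < y) : ∃ z, x ≤ z ∧ z < y ∧ rk z + 1 = rk y := by
  have key : ∀ k : ℕ, ∀ x y : α, x < y → rk y - rk x = k → ∃ z, x ≤ z ∧ z < y ∧ rk z + 1 = rk y := by
    intro k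
    induction k using Nat.strong_induction_on with
    | _ k ih =>
      intro x y hxy hk
      have h1 := G.lt x y hxy
      by_cases h2 : rk x + 1 < rk y
      · obtain ⟨z, hxz, hzy⟩ := G.fill x y hxy h2
        have h3 := G.lt x z hxz
        have h4 := G.lt z y hzy
        obtain ⟨w, hzw, hwy, hw⟩ := ih (rk y - rk z) (by omega) z y hzy rfl
        exact ⟨w, hxz.le.trans hzw, hwy, hw⟩
      · exact ⟨x, le_rfl, hxy, by omega⟩
  exact key _ x y h rfl

lemma covBy_iff {x y : α} : x ⋖ y ↔ x < y ∧ rk y = rk x + 1 := by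
  constructor
  · intro h
    refine ⟨h.lt, ?_⟩
    by_contra hne
    have h1 := G.lt _ _ h.lt
    obtain ⟨z, h2, h3⟩ := G.fill x y h.lt (by omega)
    exact h.2 h2 h3
  · rintro ⟨h, hr⟩
    refine ⟨h, fun z h2 h3 => ?_⟩
    have h4 := G.lt _ _ h2
    have h5 := G.lt _ _ h3
    omega

lemma height_eq (x : α) : height x = (rk x : ℕ∞) := by
  have key : ∀ k : ℕ, ∀ x : α, rk x = k → height x = (k : ℕ∞) := by
    intro k
    induction k using Nat.strong_induction_on with
    | _ k ih =>
      intro x hx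
      apply le_antisymm
      · rw [Order.height_le_coe_iff]
        intro y hy
        have h1 := G.lt y x hy
        rw [ih (rk y) (by omega) y rfl]
        exact_mod_cast (by omega)
      · rcases Nat.eq_zero_or_pos k with rfl | hk
        · simp
        · have hbot : (⊥ : α) < x := by
            rw [bot_lt_iff_ne_bot]
            rintro rfl
            rw [G.bot] at hx
            omega
          obtain ⟨z, _, hz, hrz⟩ := G.exists_pred hbot
          have h2 := Order.height_add_one_le hz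
          rw [ih (rk z) (by omega) z rfl] at h2
          have h3 : ((rk z : ℕ∞) + 1) = (k : ℕ∞) := by
            have : rk z + 1 = k := by omega
            exact_mod_cast this
          rw [h3] at h2
          exact h2
  exact key _ x rfl

lemma isAtom_iff {x : α} : IsAtom x ↔ rk x = 1 := by
  rw [← bot_covBy_iff, G.covBy_iff, G.bot]
  constructor
  · rintro ⟨_, h⟩; exact h
  · intro h
    refine ⟨?_, h⟩
    rw [bot_lt_iff_ne_bot]
    rintro rfl
    rw [G.bot] at h
    omega

lemma isCoatom_iff {x : α} : IsCoatom x ↔ rk x = n := by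
  rw [← covBy_top_iff, G.covBy_iff, G.top]
  constructor
  · rintro ⟨_, h⟩; omega
  · intro h
    refine ⟨?_, by omega⟩
    rw [lt_top_iff_ne_top]
    rintro rfl
    rw [G.top] at h
    omega

lemma eq_of_mem_of_rk {Φ : Flag α} {x y : α} (hx : x ∈ Φ) (hy : y ∈ Φ) (h : rk x = rk y) :
    x = y := by
  by_contra hne
  rcases Φ.le_or_le hx hy with h1 | h1
  · have := G.lt _ _ (lt_of_le_of_ne h1 hne); omega
  · have := G.lt _ _ (lt_of_le_of_ne h1 (Ne.symm hne)); omega

/-- A chain containing bottom and top without an element of rank `i` can be extended. -/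
lemma exists_gap {C : Set α} (hC : IsChain (· ≤ ·) C) (hb : ⊥ ∈ C) (ht : ⊤ ∈ C)
    {i : ℕ} (hi : i ≤ n + 1) (hno : ∀ x ∈ C, rk x ≠ i) :
    ∃ x ∈ C, ∃ z ∈ C, x < z ∧ rk x < i ∧ i < rk z ∧ ∀ c ∈ C, c ≤ x ∨ z ≤ c := by
  classical
  have h0 : i ≠ 0 := by
    rintro rfl; exact hno ⊥ hb G.bot
  have h1 : i ≠ n + 1 := by
    rintro rfl; exact hno ⊤ ht G.top
  -- element of largest rank below `i`
  have hex1 : ∃ k, ∃ x ∈ C, rk x = k ∧ k < i := ⟨0, ⊥, hb, G.bot, by omega⟩
  have hex2 : ∃ k, ∃ x ∈ C, rk x = k ∧ i < k := ⟨n + 1, ⊤, ht, G.top, by omega⟩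
  have hbd : ∀ k, (∃ x ∈ C, rk x = k ∧ k < i) → k ≤ i := fun k ⟨_, _, _, h⟩ => h.le
  obtain ⟨x, hxC, hxk, hxi⟩ := Nat.findGreatest_spec (P := fun k => ∃ x ∈ C, rk x = k ∧ k < i)
    (n := i) (m := 0) (Nat.zero_le _) ⟨⊥, hb, G.bot, by omega⟩
  obtain ⟨z, hzC, hzk, hzi⟩ := Nat.find_spec hex2
  set kx := Nat.findGreatest (fun k => ∃ x ∈ C, rk x = k ∧ k < i) i with hkx
  set kz := Nat.find hex2 with hkz
  have hcmp : ∀ {a b : α}, a ∈ C → b ∈ C → rk a < rk b → a < b := by
    intro a b ha hb' hab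
    rcases eq_or_ne a b with rfl | hne
    · exact absurd hab (lt_irrefl _)
    · rcases hC ha hb' hne with h | h
      · exact lt_of_le_of_ne h hne
      · exact absurd (G.lt _ _ (lt_of_le_of_ne h (Ne.symm hne))) (by omega)
  have hcmp' : ∀ {a b : α}, a ∈ C → b ∈ C → rk a ≤ rk b → a ≤ b := by
    intro a b ha hb' hab
    rcases eq_or_ne a b with rfl | hne
    · exact le_rfl
    · rcases hC ha hb' hne with h | h
      · exact h
      · exact absurd (G.lt _ _ (lt_of_le_of_ne h (Ne.symm hne))) (by omega)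
  refine ⟨x, hxC, z, hzC, hcmp hxC hzC (by omega), by omega, by omega, ?_⟩
  intro c hc
  rcases lt_trichotomy (rk c) i with h | h | h
  · left
    apply hcmp' hc hxC
    rw [hxk]
    exact Nat.le_findGreatest h.le ⟨c, hc, rfl, h⟩
  · exact absurd h (hno c hc)
  · right
    apply hcmp' hzC hc
    rw [hzk]
    exact Nat.find_min' hex2 ⟨c, hc, rfl, h⟩

lemma exists_rk (Φ : Flag α) {i : ℕ} (hi : i ≤ n + 1) : ∃ x ∈ Φ, rk x = i := by
  by_contra hno
  push Not at hno
  obtain ⟨x, hx, z, hz, hxz, h1, h2, h3⟩ := G.exists_gap Φ.chain_le Φ.bot_mem Φ.top_mem hi hno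
  obtain ⟨w, hxw, hwz⟩ := G.fill x z hxz (by omega)
  have hw : w ∈ Φ := by
    rw [Flag.mem_iff_forall_le_or_ge]
    intro c hc
    rcases h3 c hc with h | h
    · exact Or.inr (h.trans hxw.le)
    · exact Or.inl (hwz.le.trans h)
  rcases h3 w hw with h | h
  · exact absurd (lt_of_lt_of_le hxw h) (lt_irrefl _)
  · exact absurd (lt_of_lt_of_le hwz h) (lt_irrefl _)

lemma flag_ncard (Φ : Flag α) : (Φ : Set α).ncard = n + 2 := by
  have h1 : rk '' (Φ : Set α) = Set.Iio (n + 2) := by
    ext i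
    rw [Set.mem_image, Set.mem_Iio]
    constructor
    · rintro ⟨x, _, rfl⟩
      have := G.rk_le x
      omega
    · intro hi
      obtain ⟨x, hx, hxi⟩ := G.exists_rk Φ (i := i) (by omega)
      exact ⟨x, hx, hxi⟩
  have h2 : Set.InjOn rk (Φ : Set α) := fun x hx y hy h => G.eq_of_mem_of_rk hx hy h
  rw [← h2.ncard_image, h1]
  rw [Set.ncard_eq_toFinset_card', Set.toFinset_Iio, Nat.card_Iio]

lemma flag_finite (Φ : Flag α) : (Φ : Set α).Finite := by
  apply Set.finite_of_ncard_ne_zero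
  rw [G.flag_ncard]; omega

end Graded

omit [BoundedOrder α] in
lemma flag_eq_of_subset {Φ Ψ : Flag α} (h : (Φ : Set α) ⊆ Ψ) : Φ = Ψ :=
  Flag.ext (Φ.max_chain' Ψ.chain_le h)

/-- Sections of rank at least two are connected. -/
def SectionsConnected (rk : α → ℕ) : Prop :=
  ∀ x z : α, rk x + 2 < rk z → ∀ u w : α, x < u → u < z → x < w → w < z →
    Relation.ReflTransGen (fun a b : α => (x < b ∧ b < z) ∧ (a ≤ b ∨ b ≤ a)) u w

/-- The link of a chain. -/
def InLink (C : Set α) (a : α) : Prop := a ∉ C ∧ ∀ c ∈ C, a ≤ c ∨ c ≤ a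

lemma link_connected {rk : α → ℕ} {n : ℕ} (G : Graded rk n) (hS : SectionsConnected rk)
    {C : Set α} (hb : ⊥ ∈ C) (ht : ⊤ ∈ C) {Φ : Flag α} (hCΦ : C ⊆ Φ)
    (hcard : 2 ≤ ((Φ : Set α) \ C).ncard) {a b : α} (ha : InLink C a) (hb' : InLink C b) :
    Relation.ReflTransGen (fun u w : α => InLink C w ∧ (u ≤ w ∨ w ≤ u)) a b := by
  by_cases hab : a ≤ b ∨ b ≤ a
  · exact Relation.ReflTransGen.single ⟨hb', hab⟩
  have hC : IsChain (· ≤ ·) C := Φ.chain_le.mono hCΦ
  -- every element of `C` is on the same side of `a` and `b`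
  have hside : ∀ c ∈ C, (c ≤ a ∧ c ≤ b) ∨ (a ≤ c ∧ b ≤ c) := by
    intro c hc
    rcases ha.2 c hc with h1 | h1
    · rcases hb'.2 c hc with h2 | h2
      · exact Or.inr ⟨h1, h2⟩
      · exact absurd (Or.inl (h1.trans h2)) hab
    · rcases hb'.2 c hc with h2 | h2
      · exact absurd (Or.inr (h2.trans h1)) hab
      · exact Or.inl ⟨h1, h2⟩
  have hno : ∀ c ∈ C, rk c ≠ rk a := by
    intro c hc h
    rcases ha.2 c hc with h1 | h1
    · rcases h1.eq_or_lt with rfl | h1
      · exact ha.1 hc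
      · have := G.lt _ _ h1; omega
    · rcases h1.eq_or_lt with rfl | h1
      · exact ha.1 hc
      · have := G.lt _ _ h1; omega
  obtain ⟨x, hx, z, hz, hxz, hxa, haz, hall⟩ := G.exists_gap hC hb ht (G.rk_le a) hno
  have hne : ∀ {c d : α}, InLink C c → d ∈ C → c ≠ d := by
    rintro c d hc hd rfl; exact hc.1 hd
  have hxa' : x < a ∧ x < b := by
    rcases hside x hx with h | h
    · exact ⟨lt_of_le_of_ne h.1 (hne ha hx).symm, lt_of_le_of_ne h.2 (hne hb' hx).symm⟩
    · have := G.le_of_le h.1; omega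
  have hza' : a < z ∧ b < z := by
    rcases hside z hz with h | h
    · have := G.le_of_le h.1; omega
    · exact ⟨lt_of_le_of_ne h.1 (hne ha hz), lt_of_le_of_ne h.2 (hne hb' hz)⟩
  by_cases h2 : rk x + 2 < rk z
  · -- inside the section
    have hpath := hS x z h2 a b hxa'.1 hza'.1 hxa'.2 hza'.2
    refine Relation.ReflTransGen.mono ?_ _ _ hpath
    rintro u w ⟨⟨h3, h4⟩, h5⟩
    refine ⟨⟨?_, ?_⟩, h5⟩
    · intro hw
      rcases hall w hw with h | h
      · exact absurd (lt_of_lt_of_le h3 h) (lt_irrefl _)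
      · exact absurd (lt_of_lt_of_le h4 h) (lt_irrefl _)
    · intro c hc
      rcases hall c hc with h | h
      · exact Or.inr (h.trans h3.le)
      · exact Or.inl (h4.le.trans h)
  · -- another gap
    have h3 := G.lt _ _ hxa'.1
    have h4 := G.lt _ _ hza'.1
    have hrk : rk z = rk x + 2 := by omega
    have hsub : ∃ u ∈ (Φ : Set α) \ C, ¬ (x < u ∧ u < z) := by
      by_contra hcon
      push Not at hcon
      have hss : ((Φ : Set α) \ C).Subsingleton := by
        intro u hu w hw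
        have h5 := hcon u hu
        have h6 := hcon w hw
        have h7 := G.lt _ _ h5.1
        have h8 := G.lt _ _ h5.2
        have h9 := G.lt _ _ h6.1
        have h10 := G.lt _ _ h6.2
        exact G.eq_of_mem_of_rk hu.1 hw.1 (by omega)
      have : ((Φ : Set α) \ C).ncard ≤ 1 := by
        rcases hss.eq_empty_or_singleton with h | ⟨u, h⟩
        · rw [h, Set.ncard_empty]; omega
        · rw [h, Set.ncard_singleton]
      omega
    obtain ⟨u, hu, hux⟩ := hsub
    have hulink : InLink C u := ⟨hu.2, fun c hc => Φ.le_or_le hu.1 (hCΦ hc)⟩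
    have hux' : u ≤ x ∨ z ≤ u := by
      rcases Φ.le_or_le hu.1 (hCΦ hx) with h | h
      · exact Or.inl h
      · rcases Φ.le_or_le hu.1 (hCΦ hz) with h' | h'
        · exact absurd ⟨lt_of_le_of_ne h (hne hulink hx).symm,
            lt_of_le_of_ne h' (hne hulink hz)⟩ hux
        · exact Or.inr h'
    have h5 : (a ≤ u ∨ u ≤ a) ∧ (u ≤ b ∨ b ≤ u) := by
      rcases hux' with h | h
      · exact ⟨Or.inr (h.trans hxa'.1.le), Or.inl (h.trans hxa'.2.le)⟩
      · exact ⟨Or.inl (hza'.1.le.trans h), Or.inr (hza'.2.le.trans h)⟩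
    exact (Relation.ReflTransGen.single ⟨hulink, h5.1⟩).tail ⟨hb', h5.2⟩

lemma strongly_connected_aux {rk : α → ℕ} {n : ℕ} (G : Graded rk n)
    (hS : SectionsConnected rk) : ∀ (m : ℕ) (C : Set α) (Φ Ψ : Flag α), ⊥ ∈ C → ⊤ ∈ C →
      C ⊆ Φ → C ⊆ Ψ → ((Φ : Set α) \ C).ncard = m →
      Relation.ReflTransGen (fun A B : Flag α => FlagAdj A B ∧ C ⊆ B) Φ Ψ := by
  intro m
  induction m using Nat.strong_induction_on with
  | _ m ih =>
    intro C Φ Ψ hb ht hCΦ hCΨ hm
    have hΦfin := G.flag_finite Φ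
    have hΨfin := G.flag_finite Ψ
    have hCfin : C.Finite := hΦfin.subset hCΦ
    have hcardΦ : ((Φ : Set α) \ C).ncard + C.ncard = n + 2 := by
      rw [Set.ncard_sdiff_add_ncard_of_subset hCΦ hΦfin, G.flag_ncard]
    have hcardΨ : ((Ψ : Set α) \ C).ncard + C.ncard = n + 2 := by
      rw [Set.ncard_sdiff_add_ncard_of_subset hCΨ hΨfin, G.flag_ncard]
    have hmΨ : ((Ψ : Set α) \ C).ncard = m := by omega
    -- sharing a further element
    have share : ∀ (Φ' Ψ' : Flag α) (w : α), w ∉ C → C ⊆ Φ' → C ⊆ Ψ' → w ∈ Φ' → w ∈ Ψ' →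
        0 < m →
        Relation.ReflTransGen (fun A B : Flag α => FlagAdj A B ∧ C ⊆ B) Φ' Ψ' := by
      intro Φ' Ψ' w hw h1 h2 h3 h4 hpos
      have hΦ'fin := G.flag_finite Φ'
      have hcard' : ((Φ' : Set α) \ C).ncard + C.ncard = n + 2 := by
        rw [Set.ncard_sdiff_add_ncard_of_subset h1 hΦ'fin, G.flag_ncard]
      have hsub : insert w C ⊆ (Φ' : Set α) := Set.insert_subset h3 h1
      have hcard'' : ((Φ' : Set α) \ insert w C).ncard + (insert w C).ncard = n + 2 := by
        rw [Set.ncard_sdiff_add_ncard_of_subset hsub hΦ'fin, G.flag_ncard]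
      rw [Set.ncard_insert_of_notMem hw hCfin] at hcard''
      have hpath := ih (((Φ' : Set α) \ insert w C).ncard) (by omega) (insert w C) Φ' Ψ'
        (Set.mem_insert_of_mem _ hb) (Set.mem_insert_of_mem _ ht) hsub
        (Set.insert_subset h4 h2) rfl
      refine Relation.ReflTransGen.mono ?_ _ _ hpath
      rintro A B ⟨h5, h6⟩
      exact ⟨h5, (Set.subset_insert _ _).trans h6⟩
    rcases Nat.lt_or_ge m 2 with hm2 | hm2
    · -- at most one missing element
      rcases Nat.eq_zero_or_pos m with rfl | hpos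
      · have h1 : (Φ : Set α) \ C = ∅ := by
          rwa [Set.ncard_eq_zero (hΦfin.subset Set.sdiff_subset)] at hm
        have h2 : (Φ : Set α) ⊆ C := Set.sdiff_eq_empty.1 h1
        have h3 : Φ = Ψ := flag_eq_of_subset (h2.trans hCΨ)
        rw [h3]
      · have hm1 : m = 1 := by omega
        subst hm1
        obtain ⟨x, hx⟩ := Set.ncard_eq_one.1 hm
        obtain ⟨y, hy⟩ := Set.ncard_eq_one.1 hmΨ
        have hxm : x ∈ (Φ : Set α) \ C := by rw [hx]; exact Set.mem_singleton _
        have hym : y ∈ (Ψ : Set α) \ C := by rw [hy]; exact Set.mem_singleton _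
        have hΦC : (Φ : Set α) \ {x} = C := by
          rw [← hx, Set.sdiff_sdiff_cancel_left hCΦ]
        have hΨC : (Ψ : Set α) \ {y} = C := by
          rw [← hy, Set.sdiff_sdiff_cancel_left hCΨ]
        by_cases hxy : x = y
        · subst hxy
          exact share Φ Ψ x hxm.2 hCΦ hCΨ hxm.1 hym.1 (by omega)
        · exact Relation.ReflTransGen.single
            ⟨⟨x, hxm.1, y, hym.1, hxy, hΦC.trans hΨC.symm⟩, hCΨ⟩
    · -- at least two missing elements
      obtain ⟨a, ha⟩ : ((Φ : Set α) \ C).Nonempty := by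
        apply Set.nonempty_of_ncard_ne_zero; omega
      obtain ⟨b, hb'⟩ : ((Ψ : Set α) \ C).Nonempty := by
        apply Set.nonempty_of_ncard_ne_zero; omega
      have haL : InLink C a := ⟨ha.2, fun c hc => Φ.le_or_le ha.1 (hCΦ hc)⟩
      have hbL : InLink C b := ⟨hb'.2, fun c hc => Ψ.le_or_le hb'.1 (hCΨ hc)⟩
      have hpath := link_connected G hS hb ht hCΦ (by omega) haL hbL
      have hC : IsChain (· ≤ ·) C := Φ.chain_le.mono hCΦ
      -- induction along the path
      have key : ∀ h : α, Relation.ReflTransGen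
          (fun u w : α => InLink C w ∧ (u ≤ w ∨ w ≤ u)) a h → InLink C h ∧
          ∀ Θ : Flag α, C ⊆ Θ → h ∈ Θ →
            Relation.ReflTransGen (fun A B : Flag α => FlagAdj A B ∧ C ⊆ B) Φ Θ := by
        intro h hp
        induction hp with
        | refl => exact ⟨haL, fun Θ h1 h2 => share Φ Θ a ha.2 hCΦ h1 ha.1 h2 (by omega)⟩
        | @tail u w _ huw ihp =>
          refine ⟨huw.1, fun Θ h1 h2 => ?_⟩
          have hchain : IsChain (· ≤ ·) (insert u (insert w C)) := by
            refine (hC.insert (fun c hc _ => huw.1.2 c hc)).insert ?_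
            intro c hc _
            rcases hc with rfl | hc
            · exact huw.2
            · exact ihp.1.2 c hc
          obtain ⟨Λ, hΛ⟩ := hchain.exists_subset_flag
          have hΛC : C ⊆ Λ := fun c hc =>
            hΛ (Set.mem_insert_of_mem _ (Set.mem_insert_of_mem _ hc))
          have h3 := ihp.2 Λ hΛC (hΛ (Set.mem_insert _ _))
          have h4 := share Λ Θ w huw.1.1 hΛC h1
            (hΛ (Set.mem_insert_of_mem _ (Set.mem_insert _ _))) h2 (by omega)
          exact h3.trans h4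
      exact (key b hpath).2 Ψ hCΨ hb'.1

lemma Graded.strongly_connected {rk : α → ℕ} {n : ℕ} (G : Graded rk n)
    (hS : SectionsConnected rk) (Φ Ψ : Flag α) :
    Relation.ReflTransGen (fun A B : Flag α => FlagAdj A B ∧ (Φ : Set α) ∩ Ψ ⊆ B) Φ Ψ :=
  strongly_connected_aux G hS _ _ Φ Ψ ⟨Φ.bot_mem, Ψ.bot_mem⟩ ⟨Φ.top_mem, Ψ.top_mem⟩
    Set.inter_subset_left Set.inter_subset_right rfl

/-- Verification criterion for polytopes. -/
theorem Graded.isPolytope {rk : α → ℕ} {n : ℕ} (G : Graded rk n)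
    (hS : SectionsConnected rk)
    (hD : ∀ x z : α, x < z → rk z = rk x + 2 → {w | x < w ∧ w < z}.ncard = 2) :
    IsPolytope n α where
  flag_card := G.flag_ncard
  flag_connected := G.strongly_connected hS
  diamond := by
    intro x y z hxy hyz
    rw [G.covBy_iff] at hxy hyz
    exact hD x z (hxy.1.trans hyz.1) (by omega)

end Pool.Agent.Lib.MP_993768_co
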