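import Mathlib
import Pool.Agent.Lib.MP_993768_co.Graded

set_option autoImplicit false

/-!
Finite posets coded by the bits of a natural number, with kernel-efficient checks.
-/

namespace Pool.Agent.Lib.MP_993768_co

/-- Bounded universal quantifier. -/
def chk (n : ℕ) (f : ℕ → Bool) : Bool := Nat.rec true (fun k ih => f k && ih) n

/-- Bounded existential quantifier. -/
def exq (n : ℕ) (f : ℕ → Bool) : Bool := Nat.rec false (fun k ih => f k || ih) n

/-- Counting. -/
def cnt (n : ℕ) (f : ℕ → Bool) : ℕ := Nat.rec 0 (fun k ih => cond (f k) (ih + 1) ih) n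

lemma chk_succ (n : ℕ) (f : ℕ → Bool) : chk (n + 1) f = (f n && chk n f) := rfl
lemma exq_succ (n : ℕ) (f : ℕ → Bool) : exq (n + 1) f = (f n || exq n f) := rfl
lemma cnt_succ (n : ℕ) (f : ℕ → Bool) : cnt (n + 1) f = cond (f n) (cnt n f + 1) (cnt n f) := rfl

lemma chk_spec {n : ℕ} {f : ℕ → Bool} (h : chk n f = true) {k : ℕ} (hk : k < n) : f k = true := by
  induction n with
  | zero => omega
  | succ n ih =>
    rw [chk_succ, Bool.and_eq_true] at h
    rcases Nat.lt_succ_iff_lt_or_eq.1 hk with h1 | rfl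
    · exact ih h.2 h1
    · exact h.1

lemma exq_spec {n : ℕ} {f : ℕ → Bool} (h : exq n f = true) : ∃ k, k < n ∧ f k = true := by
  induction n with
  | zero => exact absurd h (by simp [exq])
  | succ n ih =>
    rw [exq_succ, Bool.or_eq_true] at h
    rcases h with h | h
    · exact ⟨n, Nat.lt_succ_self n, h⟩
    · obtain ⟨k, hk, hf⟩ := ih h
      exact ⟨k, by omega, hf⟩

lemma cnt_eq {n : ℕ} (f : ℕ → Bool) : cnt n f = ((Finset.range n).filter (fun k => f k = true)).card := by
  induction n with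
  | zero => simp [cnt]
  | succ n ih =>
    rw [cnt_succ, Finset.range_add_one, Finset.filter_insert]
    by_cases h : f n = true
    · rw [if_pos h, Finset.card_insert_of_notMem (by simp), h, ih]; rfl
    · rw [if_neg h, ← ih]
      have : f n = false := by simpa using h
      rw [this]; rfl

/-- The order relation coded by `M` on `{0, ..., k}`. -/
def leB (k M a b : ℕ) : Bool := M.testBit ((k + 1) * a + b)

/-- Strict order. -/
def ltB (k M a b : ℕ) : Bool := leB k M a b && !(Nat.beq a b)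

/-- Validity of the code. -/
def okB (k M : ℕ) : Bool :=
  (chk (k + 1) fun a => leB k M a a && (leB k M 0 a && leB k M a k)) &&
  ((chk (k + 1) fun a => chk (k + 1) fun b => !(leB k M a b && leB k M b a) || Nat.beq a b) &&
  (chk (k + 1) fun a => chk (k + 1) fun b => !(leB k M a b) || chk (k + 1) fun c =>
    !(leB k M b c) || leB k M a c))

/-- The coded type. -/
def CT (k _M : ℕ) : Type := Fin (k + 1)

instance (k M : ℕ) : DecidableEq (CT k M) := inferInstanceAs (DecidableEq (Fin (k + 1)))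
instance (k M : ℕ) : Fintype (CT k M) := inferInstanceAs (Fintype (Fin (k + 1)))

/-- The index of an element. -/
def CT.ix {k M : ℕ} (a : CT k M) : ℕ := Fin.val (n := k + 1) a

lemma CT.ix_lt {k M : ℕ} (a : CT k M) : a.ix < k + 1 := Fin.isLt (n := k + 1) a

/-- The element with a given index. -/
def CT.mk' (k M : ℕ) (i : ℕ) (h : i < k + 1) : CT k M := (⟨i, h⟩ : Fin (k + 1))

@[simp] lemma CT.ix_mk' {k M i : ℕ} (h : i < k + 1) : (CT.mk' k M i h).ix = i := rfl

lemma CT.ext {k M : ℕ} {a b : CT k M} (h : a.ix = b.ix) : a = b := Fin.ext (n := k + 1) h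

lemma CT.ix_inj {k M : ℕ} {a b : CT k M} : a.ix = b.ix ↔ a = b := ⟨CT.ext, fun h => h ▸ rfl⟩

section

variable {k M : ℕ} [hok : Fact (okB k M = true)]

instance : PartialOrder (CT k M) where
  le a b := leB k M a.ix b.ix = true
  le_refl a := by
    have h := hok.out
    unfold okB at h
    rw [Bool.and_eq_true] at h
    have h1 := chk_spec h.1 a.ix_lt
    rw [Bool.and_eq_true] at h1
    exact h1.1
  le_trans a b c hab hbc := by
    have h := hok.out
    unfold okB at h
    rw [Bool.and_eq_true, Bool.and_eq_true] at h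
    have h1 := chk_spec (chk_spec h.2.2 a.ix_lt) b.ix_lt
    rw [Bool.or_eq_true, Bool.not_eq_true'] at h1
    rcases h1 with h1 | h1
    · exact absurd (hab.symm.trans h1) (by decide)
    · have h2 := chk_spec h1 c.ix_lt
      rw [Bool.or_eq_true, Bool.not_eq_true'] at h2
      rcases h2 with h2 | h2
      · exact absurd (hbc.symm.trans h2) (by decide)
      · exact h2
  le_antisymm a b hab hba := by
    have h := hok.out
    unfold okB at h
    rw [Bool.and_eq_true, Bool.and_eq_true] at h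
    have h1 := chk_spec (chk_spec h.2.1 a.ix_lt) b.ix_lt
    rw [Bool.or_eq_true, Bool.not_eq_true'] at h1
    rcases h1 with h1 | h1
    · rw [show leB k M a.ix b.ix = true from hab, show leB k M b.ix a.ix = true from hba] at h1
      exact absurd h1 (by decide)
    · exact CT.ext (Nat.eq_of_beq_eq_true h1)

lemma CT.le_iff {a b : CT k M} : a ≤ b ↔ leB k M a.ix b.ix = true := Iff.rfl

lemma CT.lt_iff {a b : CT k M} : a < b ↔ ltB k M a.ix b.ix = true := by
  rw [lt_iff_le_and_ne, CT.le_iff, ltB, Bool.and_eq_true, Bool.not_eq_true', Ne, ← CT.ix_inj]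
  constructor
  · rintro ⟨h1, h2⟩
    refine ⟨h1, ?_⟩
    rw [← Bool.not_eq_true]
    intro h
    exact h2 (Nat.eq_of_beq_eq_true h)
  · rintro ⟨h1, h2⟩
    refine ⟨h1, ?_⟩
    intro h
    rw [h, Nat.beq_refl] at h2
    exact absurd h2 (by decide)

instance : BoundedOrder (CT k M) where
  bot := CT.mk' k M 0 (Nat.succ_pos k)
  top := CT.mk' k M k (Nat.lt_succ_self k)
  bot_le a := by
    have h := hok.out
    unfold okB at h
    rw [Bool.and_eq_true] at h
    have h1 := chk_spec h.1 a.ix_lt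
    rw [Bool.and_eq_true, Bool.and_eq_true] at h1
    exact h1.2.1
  le_top a := by
    have h := hok.out
    unfold okB at h
    rw [Bool.and_eq_true] at h
    have h1 := chk_spec h.1 a.ix_lt
    rw [Bool.and_eq_true, Bool.and_eq_true] at h1
    exact h1.2.2

lemma CT.ix_bot : (⊥ : CT k M).ix = 0 := rfl
lemma CT.ix_top : (⊤ : CT k M).ix = k := rfl

end

/-- Cardinality of a coded subset. -/
lemma ncard_coded {k M : ℕ} (f : ℕ → Bool) :
    {w : CT k M | f w.ix = true}.ncard = cnt (k + 1) f := by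
  classical
  rw [cnt_eq]
  have h1 : {w : CT k M | f w.ix = true}.ncard = (Finset.univ.filter
      (fun w : CT k M => f w.ix = true)).card := by
    rw [Set.ncard_eq_toFinset_card']
    congr 1
    ext w
    simp
  rw [h1]
  apply Finset.card_bij (fun (w : CT k M) _ => w.ix)
  · intro w hw
    rw [Finset.mem_filter] at hw
    rw [Finset.mem_filter, Finset.mem_range]
    exact ⟨w.ix_lt, hw.2⟩
  · intro a _ b _ h
    exact CT.ext h
  · intro i hi
    rw [Finset.mem_filter, Finset.mem_range] at hi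
    refine ⟨CT.mk' k M i hi.1, ?_, rfl⟩
    rw [Finset.mem_filter]
    exact ⟨Finset.mem_univ _, hi.2⟩

/-- A digit of a table, three bits. -/
def dig (T i : ℕ) : ℕ := (T >>> (6 * i)) % 64

/-- Check of the rank function. -/
def gradedB (k M T n : ℕ) : Bool :=
  (Nat.beq (dig T 0) 0 && Nat.beq (dig T k) (n + 1)) &&
  (chk (k + 1) fun a => chk (k + 1) fun b => !(ltB k M a b) ||
    (Nat.blt (dig T a) (dig T b) && (!(Nat.blt (dig T a + 1) (dig T b)) ||
      exq (k + 1) fun c => ltB k M a c && ltB k M c b)))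

lemma graded_of_check {k M T n : ℕ} [Fact (okB k M = true)] (h : gradedB k M T n = true) :
    Graded (fun a : CT k M => dig T a.ix) n := by
  unfold gradedB at h
  rw [Bool.and_eq_true, Bool.and_eq_true] at h
  obtain ⟨⟨h1, h2⟩, h3⟩ := h
  have key : ∀ a b : CT k M, a < b → dig T a.ix < dig T b.ix ∧
      (dig T a.ix + 1 < dig T b.ix → ∃ c : CT k M, a < c ∧ c < b) := by
    intro a b hab
    have h4 := chk_spec (chk_spec h3 a.ix_lt) b.ix_lt
    rw [CT.lt_iff.1 hab, Bool.not_true, Bool.false_or, Bool.and_eq_true, Bool.or_eq_true] at h4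
    refine ⟨Eq.mp Nat.blt_eq h4.1, fun h5 => ?_⟩
    rcases h4.2 with h6 | h6
    · rw [Eq.mpr Nat.blt_eq h5] at h6
      exact absurd h6 (by decide)
    · obtain ⟨c, hc, hc2⟩ := exq_spec h6
      rw [Bool.and_eq_true] at hc2
      exact ⟨CT.mk' k M c hc, CT.lt_iff.2 hc2.1, CT.lt_iff.2 hc2.2⟩
  exact ⟨Nat.eq_of_beq_eq_true h1, Nat.eq_of_beq_eq_true h2, fun x y hxy => (key x y hxy).1,
    fun x y hxy => (key x y hxy).2⟩

/-- Check of the diamond condition. -/
def diamondB (k M T : ℕ) : Bool :=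
  chk (k + 1) fun a => chk (k + 1) fun b => !(ltB k M a b && Nat.beq (dig T b) (dig T a + 2)) ||
    Nat.beq (cnt (k + 1) fun c => ltB k M a c && ltB k M c b) 2

lemma diamond_of_check {k M T : ℕ} [Fact (okB k M = true)] (h : diamondB k M T = true)
    (x z : CT k M) (hxz : x < z) (hr : dig T z.ix = dig T x.ix + 2) :
    {w | x < w ∧ w < z}.ncard = 2 := by
  have h1 := chk_spec (chk_spec h x.ix_lt) z.ix_lt
  rw [CT.lt_iff.1 hxz, hr, Nat.beq_refl] at h1
  have h2 : Nat.beq (cnt (k + 1) fun c => ltB k M x.ix c && ltB k M c z.ix) 2 = true := by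
    simpa using h1
  have h3 := Nat.eq_of_beq_eq_true h2
  rw [← h3, ← ncard_coded (M := M)]
  congr 1
  ext w
  simp only [Set.mem_ofPred_eq, Bool.and_eq_true, CT.lt_iff]

/-- One step of a search inside `mask`; the row `w` of `M` and of its transpose `MT` give the
neighbours. -/
def stepB (k M MT mask S : ℕ) (N : ℕ) : ℕ :=
  Nat.rec S (fun w acc => cond (S.testBit w)
    (acc ||| (((M >>> ((k + 1) * w)) ||| (MT >>> ((k + 1) * w))) &&& mask)) acc) N

/-- Iterated search. -/
def searchB (k M MT mask b : ℕ) (d : ℕ) : ℕ :=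
  Nat.rec (1 <<< b) (fun _ S => stepB k M MT mask S (k + 1)) d

lemma stepB_spec {k M MT mask S : ℕ} {N i : ℕ} (h : (stepB k M MT mask S N).testBit i = true) :
    S.testBit i = true ∨ ∃ w, w < N ∧ S.testBit w = true ∧ mask.testBit i = true ∧
      (M.testBit ((k + 1) * w + i) = true ∨ MT.testBit ((k + 1) * w + i) = true) := by
  induction N with
  | zero => exact Or.inl h
  | succ N ih =>
    have h1 : stepB k M MT mask S (N + 1) = cond (S.testBit N)
        (stepB k M MT mask S N ||| (((M >>> ((k + 1) * N)) ||| (MT >>> ((k + 1) * N))) &&& mask))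
        (stepB k M MT mask S N) := rfl
    rw [h1] at h
    by_cases hS : S.testBit N = true
    · rw [hS, cond_true, Nat.testBit_or, Bool.or_eq_true, Nat.testBit_and, Bool.and_eq_true,
        Nat.testBit_or, Bool.or_eq_true, Nat.testBit_shiftRight, Nat.testBit_shiftRight] at h
      rcases h with h | ⟨h2, h3⟩
      · rcases ih h with h | ⟨w, hw, h4⟩
        · exact Or.inl h
        · exact Or.inr ⟨w, by omega, h4⟩
      · exact Or.inr ⟨N, by omega, hS, h3, h2⟩
    · rw [Bool.not_eq_true] at hS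
      rw [hS, cond_false] at h
      rcases ih h with h | ⟨w, hw, h4⟩
      · exact Or.inl h
      · exact Or.inr ⟨w, by omega, h4⟩

/-- Check of the connectedness of sections.  `mask` of the section `(x, z)` is computed from the
row of `x` in `M` and the row of `z` in `MT`. -/
def sectionsB (k M MT T : ℕ) (d : ℕ) : Bool :=
  (chk (k + 1) fun a => chk (k + 1) fun b =>
    (leB k M a b == leB k MT b a)) &&
  (chk (k + 1) fun x => chk (k + 1) fun z =>
    !(leB k M x z && Nat.blt (dig T x + 2) (dig T z)) ||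
      (let mask := (((M >>> ((k + 1) * x)) &&& (MT >>> ((k + 1) * z))) %
        2 ^ (k + 1)) ^^^ ((1 <<< x) ||| (1 <<< z))
       (mask.testBit (Nat.log2 mask) &&
        (!(mask.testBit x) && (!(mask.testBit z) &&
        ((searchB k M MT mask (Nat.log2 mask) d) &&& mask) == mask)))))

/-- The mask of a section. -/
def maskOf (k M MT x z : ℕ) : ℕ :=
  (((M >>> ((k + 1) * x)) &&& (MT >>> ((k + 1) * z))) % 2 ^ (k + 1)) ^^^ ((1 <<< x) ||| (1 <<< z))

lemma testBit_one_shiftLeft (x i : ℕ) : (1 <<< x).testBit i = decide (i = x) := by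
  rw [Nat.shiftLeft_eq, one_mul, Nat.testBit_two_pow]
  by_cases h : x = i
  · subst h; simp
  · rw [decide_eq_false h, decide_eq_false (fun h' => h h'.symm)]

lemma mask_spec {k M MT : ℕ} (hT : ∀ a b, a < k + 1 → b < k + 1 → leB k M a b = leB k MT b a)
    {x z i : ℕ} (hx : x < k + 1) (hz : z < k + 1) (hxz : leB k M x z = true)
    (hxx : leB k M x x = true) (hzz : leB k M z z = true) :
    (maskOf k M MT x z).testBit i = true ↔ i < k + 1 ∧ ltB k M x i = true ∧ ltB k M i z = true := by
  unfold maskOf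
  rw [Nat.testBit_xor, Nat.testBit_mod_two_pow, Nat.testBit_and, Nat.testBit_shiftRight,
    Nat.testBit_shiftRight, Nat.testBit_or, testBit_one_shiftLeft, testBit_one_shiftLeft]
  by_cases hi : i < k + 1
  · have h1 : M.testBit ((k + 1) * x + i) = leB k M x i := rfl
    have h2 : MT.testBit ((k + 1) * z + i) = leB k M i z := (hT i z hi hz).symm
    rw [h1, h2]
    unfold ltB
    by_cases h3 : i = x
    · subst h3
      simp [hxx, hxz, hi]
    · by_cases h4 : i = z
      · subst h4
        simp [hzz, hxz, hi]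
      · have h5 : Nat.beq x i = false := by
          rw [← Bool.not_eq_true]; intro h; exact h3 (Nat.eq_of_beq_eq_true h).symm
        have h6 : Nat.beq i z = false := by
          rw [← Bool.not_eq_true]; intro h; exact h4 (Nat.eq_of_beq_eq_true h)
        simp [hi, h3, h4, h5, h6]
  · have h3 : i ≠ x := by omega
    have h4 : i ≠ z := by omega
    simp [hi, h3, h4]

section

variable {k M : ℕ} [hok : Fact (okB k M = true)]

/-- Comparability inside a section, symmetric version. -/
def SecRel (x z a b : CT k M) : Prop :=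
  ((x < a ∧ a < z) ∧ (x < b ∧ b < z)) ∧ (a ≤ b ∨ b ≤ a)

lemma search_sound {MT : ℕ}
    (hT : ∀ a b, a < k + 1 → b < k + 1 → leB k M a b = leB k MT b a)
    {x z : CT k M} (hxz : x ≤ z) {b : ℕ} (hb : b < k + 1)
    (hbm : (maskOf k M MT x.ix z.ix).testBit b = true) (d : ℕ) :
    ∀ i, (searchB k M MT (maskOf k M MT x.ix z.ix) b d).testBit i = true →
      ∃ hi : i < k + 1, (maskOf k M MT x.ix z.ix).testBit i = true ∧
        Relation.ReflTransGen (SecRel x z) (CT.mk' k M b hb) (CT.mk' k M i hi) := by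
  have hm := fun i => mask_spec (k := k) (M := M) (MT := MT) (i := i) hT x.ix_lt z.ix_lt
    (CT.le_iff.1 hxz) (CT.le_iff.1 le_rfl) (CT.le_iff.1 le_rfl)
  induction d with
  | zero =>
    intro i hi
    have h1 : searchB k M MT (maskOf k M MT x.ix z.ix) b 0 = 1 <<< b := rfl
    rw [h1, testBit_one_shiftLeft, decide_eq_true_eq] at hi
    subst hi
    exact ⟨hb, hbm, Relation.ReflTransGen.refl⟩
  | succ d ih =>
    intro i hi
    have h1 : searchB k M MT (maskOf k M MT x.ix z.ix) b (d + 1)
        = stepB k M MT (maskOf k M MT x.ix z.ix)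
          (searchB k M MT (maskOf k M MT x.ix z.ix) b d) (k + 1) := rfl
    rw [h1] at hi
    rcases stepB_spec hi with h | ⟨w, hw, h2, h3, h4⟩
    · exact ih i h
    · obtain ⟨hwk, hwm, hpath⟩ := ih w h2
      obtain ⟨hik, hi1, hi2⟩ := (hm i).1 h3
      obtain ⟨_, hw1, hw2⟩ := (hm w).1 hwm
      refine ⟨hik, h3, hpath.tail ⟨⟨⟨CT.lt_iff.2 hw1, CT.lt_iff.2 hw2⟩,
        ⟨CT.lt_iff.2 hi1, CT.lt_iff.2 hi2⟩⟩, ?_⟩⟩
      rcases h4 with h4 | h4
      · exact Or.inl (CT.le_iff.2 h4)
      · right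
        rw [CT.le_iff]
        exact (hT i w hik hwk).trans h4

lemma sections_of_check {MT T d : ℕ} (h : sectionsB k M MT T d = true) :
    SectionsConnected (fun a : CT k M => dig T a.ix) := by
  unfold sectionsB at h
  rw [Bool.and_eq_true] at h
  obtain ⟨hT0, h⟩ := h
  have hT : ∀ a b, a < k + 1 → b < k + 1 → leB k M a b = leB k MT b a := by
    intro a b ha hb
    have := chk_spec (chk_spec hT0 ha) hb
    exact eq_of_beq this
  intro x z hr u w hxu huz hxw hwz
  have hxz : x ≤ z := (hxu.trans huz).le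
  have h1 := chk_spec (chk_spec h x.ix_lt) z.ix_lt
  rw [CT.le_iff.1 hxz, Eq.mpr Nat.blt_eq hr, Bool.and_self, Bool.not_true, Bool.false_or] at h1
  change ((maskOf k M MT x.ix z.ix).testBit (Nat.log2 (maskOf k M MT x.ix z.ix)) &&
        (!((maskOf k M MT x.ix z.ix).testBit x.ix) && (!((maskOf k M MT x.ix z.ix).testBit z.ix) &&
        ((searchB k M MT (maskOf k M MT x.ix z.ix) (Nat.log2 (maskOf k M MT x.ix z.ix)) d) &&&
          (maskOf k M MT x.ix z.ix)) == (maskOf k M MT x.ix z.ix)))) = true at h1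
  rw [Bool.and_eq_true, Bool.and_eq_true, Bool.and_eq_true] at h1
  obtain ⟨hb, _, _, hS⟩ := h1
  have hS' := eq_of_beq hS
  have hm := fun i => mask_spec (k := k) (M := M) (MT := MT) (i := i) hT x.ix_lt z.ix_lt
    (CT.le_iff.1 hxz) (CT.le_iff.1 le_rfl) (CT.le_iff.1 le_rfl)
  have hbk := ((hm _).1 hb).1
  have reach : ∀ v : CT k M, x < v → v < z → Relation.ReflTransGen (SecRel x z)
      (CT.mk' k M _ hbk) v := by
    intro v hxv hvz
    have h2 : (maskOf k M MT x.ix z.ix).testBit v.ix = true :=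
      (hm _).2 ⟨v.ix_lt, CT.lt_iff.1 hxv, CT.lt_iff.1 hvz⟩
    have h3 := h2
    rw [← hS', Nat.testBit_and, Bool.and_eq_true] at h3
    obtain ⟨_, _, hp⟩ := search_sound hT hxz hbk hb d v.ix h3.1
    exact hp
  have hsymm : ∀ a b : CT k M, SecRel x z a b → SecRel x z b a :=
    fun a b h => ⟨⟨h.1.2, h.1.1⟩, h.2.symm⟩
  have hrev : ∀ a b : CT k M, Relation.ReflTransGen (SecRel x z) a b →
      Relation.ReflTransGen (SecRel x z) b a := by
    intro a b hab
    induction hab with
    | refl => exact Relation.ReflTransGen.refl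
    | tail _ hbc ih => exact Relation.ReflTransGen.head (hsymm _ _ hbc) ih
  have hu : Relation.ReflTransGen (SecRel x z) u (CT.mk' k M _ hbk) := hrev _ _ (reach u hxu huz)
  have hpath := hu.trans (reach w hxw hwz)
  refine Relation.ReflTransGen.mono ?_ _ _ hpath
  rintro a b ⟨⟨_, h2⟩, h3⟩
  exact ⟨h2, h3⟩

/-- Isomorphism of a lower section with a coded poset, from tables. -/
def isoIic {α β : Type*} [PartialOrder α] [PartialOrder β] (F : α) (φ : α → β) (ψ : β → α)
    (h1 : ∀ y, ψ y ≤ F) (h2 : ∀ y, φ (ψ y) = y) (h3 : ∀ x, x ≤ F → ψ (φ x) = x)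
    (h4 : ∀ y y', ψ y ≤ ψ y' ↔ y ≤ y') : Set.Iic F ≃o β where
  toFun x := φ x.1
  invFun y := ⟨ψ y, h1 y⟩
  left_inv x := Subtype.ext (h3 x.1 x.2)
  right_inv y := h2 y
  map_rel_iff' := by
    intro a b
    change φ a.1 ≤ φ b.1 ↔ a ≤ b
    rw [← h4, h3 a.1 a.2, h3 b.1 b.2]
    rfl

/-- Isomorphism of an upper section with a coded poset, from tables. -/
def isoIci {α β : Type*} [PartialOrder α] [PartialOrder β] (F : α) (φ : α → β) (ψ : β → α)
    (h1 : ∀ y, F ≤ ψ y) (h2 : ∀ y, φ (ψ y) = y) (h3 : ∀ x, F ≤ x → ψ (φ x) = x)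
    (h4 : ∀ y y', ψ y ≤ ψ y' ↔ y ≤ y') : Set.Ici F ≃o β where
  toFun x := φ x.1
  invFun y := ⟨ψ y, h1 y⟩
  left_inv x := Subtype.ext (h3 x.1 x.2)
  right_inv y := h2 y
  map_rel_iff' := by
    intro a b
    change φ a.1 ≤ φ b.1 ↔ a ≤ b
    rw [← h4, h3 a.1 a.2, h3 b.1 b.2]
    rfl

end

/-- The function between coded types given by a table of digits. -/
def tabFun (k M k' M' : ℕ) (T : ℕ) (a : CT k M) : CT k' M' :=
  CT.mk' k' M' (dig T a.ix % (k' + 1)) (Nat.mod_lt _ (Nat.succ_pos k'))

/-- Check for `isoIic` (`up = false`) and `isoIci` (`up = true`). -/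
def isoB (k M k' M' : ℕ) (up : Bool) (F A B : ℕ) : Bool :=
  (chk (k' + 1) fun y => (cond up (leB k M F (dig B y % (k + 1))) (leB k M (dig B y % (k + 1)) F)) &&
    Nat.beq (dig A (dig B y % (k + 1)) % (k' + 1)) y) &&
  ((chk (k + 1) fun x => !(cond up (leB k M F x) (leB k M x F)) ||
    Nat.beq (dig B (dig A x % (k' + 1)) % (k + 1)) x) &&
  (chk (k' + 1) fun y => chk (k' + 1) fun y' =>
    (leB k M (dig B y % (k + 1)) (dig B y' % (k + 1)) == leB k' M' y y')))

lemma iso_of_check {k M k' M' F A B : ℕ} [Fact (okB k M = true)] [Fact (okB k' M' = true)]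
    (hF : F < k + 1) (h : isoB k M k' M' false F A B = true) :
    Nonempty (Set.Iic (CT.mk' k M F hF) ≃o CT k' M') := by
  unfold isoB at h
  rw [Bool.and_eq_true, Bool.and_eq_true] at h
  obtain ⟨h1, h2, h3⟩ := h
  refine ⟨isoIic (CT.mk' k M F hF) (tabFun k M k' M' A) (tabFun k' M' k M B) ?_ ?_ ?_ ?_⟩
  · intro y
    have h4 := chk_spec h1 y.ix_lt
    rw [Bool.and_eq_true] at h4
    exact h4.1
  · intro y
    have h4 := chk_spec h1 y.ix_lt
    rw [Bool.and_eq_true] at h4
    exact CT.ext (Nat.eq_of_beq_eq_true h4.2)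
  · intro x hx
    have h4 := chk_spec h2 x.ix_lt
    have h5 : leB k M x.ix F = true := hx
    rw [cond_false, h5, Bool.not_true, Bool.false_or] at h4
    exact CT.ext (Nat.eq_of_beq_eq_true h4)
  · intro y y'
    have h4 := eq_of_beq (chk_spec (chk_spec h3 y.ix_lt) y'.ix_lt)
    rw [CT.le_iff, CT.le_iff, ← h4]
    rfl

lemma iso_of_check' {k M k' M' F A B : ℕ} [Fact (okB k M = true)] [Fact (okB k' M' = true)]
    (hF : F < k + 1) (h : isoB k M k' M' true F A B = true) :
    Nonempty (Set.Ici (CT.mk' k M F hF) ≃o CT k' M') := by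
  unfold isoB at h
  rw [Bool.and_eq_true, Bool.and_eq_true] at h
  obtain ⟨h1, h2, h3⟩ := h
  refine ⟨isoIci (CT.mk' k M F hF) (tabFun k M k' M' A) (tabFun k' M' k M B) ?_ ?_ ?_ ?_⟩
  · intro y
    have h4 := chk_spec h1 y.ix_lt
    rw [Bool.and_eq_true] at h4
    exact h4.1
  · intro y
    have h4 := chk_spec h1 y.ix_lt
    rw [Bool.and_eq_true] at h4
    exact CT.ext (Nat.eq_of_beq_eq_true h4.2)
  · intro x hx
    have h4 := chk_spec h2 x.ix_lt
    have h5 : leB k M F x.ix = true := hx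
    rw [cond_true, h5, Bool.not_true, Bool.false_or] at h4
    exact CT.ext (Nat.eq_of_beq_eq_true h4)
  · intro y y'
    have h4 := eq_of_beq (chk_spec (chk_spec h3 y.ix_lt) y'.ix_lt)
    rw [CT.le_iff, CT.le_iff, ← h4]
    rfl

/-- Automorphism from a table and the table of its inverse. -/
def autB (k M A B : ℕ) : Bool :=
  (chk (k + 1) fun y => Nat.beq (dig A (dig B y % (k + 1)) % (k + 1)) y &&
    Nat.beq (dig B (dig A y % (k + 1)) % (k + 1)) y) &&
  (chk (k + 1) fun y => chk (k + 1) fun y' =>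
    (leB k M (dig A y % (k + 1)) (dig A y' % (k + 1)) == leB k M y y'))

lemma aut_of_check {k M A B : ℕ} [Fact (okB k M = true)] (h : autB k M A B = true) :
    ∃ g : CT k M ≃o CT k M, ∀ x, g x = tabFun k M k M A x := by
  unfold autB at h
  rw [Bool.and_eq_true] at h
  obtain ⟨h1, h2⟩ := h
  refine ⟨{ toFun := tabFun k M k M A, invFun := tabFun k M k M B, left_inv := ?_,
            right_inv := ?_, map_rel_iff' := ?_ }, fun x => rfl⟩
  · intro y
    have h4 := chk_spec h1 y.ix_lt
    rw [Bool.and_eq_true] at h4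
    exact CT.ext (Nat.eq_of_beq_eq_true h4.2)
  · intro y
    have h4 := chk_spec h1 y.ix_lt
    rw [Bool.and_eq_true] at h4
    exact CT.ext (Nat.eq_of_beq_eq_true h4.1)
  · intro y y'
    have h4 := eq_of_beq (chk_spec (chk_spec h2 y.ix_lt) y'.ix_lt)
    change leB k M (dig A y.ix % (k + 1)) (dig A y'.ix % (k + 1)) = true ↔
      leB k M y.ix y'.ix = true
    rw [h4]

end Pool.Agent.Lib.MP_993768_co
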