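import Mathlib
import Pool.Agent.Lib.MP_993768_co.Amalg

set_option autoImplicit false

/-!
No amalgamation of `P` and `Q` covers both `R1` and `R2`.
-/

namespace Pool.Agent.Lib.MP_993768_co

open Order

/-- Adjacent flags condition of a cover. -/
def AdjCond {U R : Type*} [PartialOrder U] [PartialOrder R] (f : U → R) : Prop :=
  ∀ Φ Ψ : Flag U, FlagAdj Φ Ψ →
      ∃ Φ' Ψ' : Flag R, (Φ' : Set R) = f '' Φ ∧ (Ψ' : Set R) = f '' Ψ ∧ FlagAdj Φ' Ψ'

lemma exists_adjacent_flags {U : Type*} [PartialOrder U] {x y y' z : U} (hxy : x ⋖ y)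
    (hyz : y ⋖ z) (hxy' : x ⋖ y') (hyz' : y' ⋖ z) (hne : y ≠ y') :
    ∃ Φ Ψ : Flag U, FlagAdj Φ Ψ ∧ y ∈ Φ ∧ (Ψ : Set U) = insert y' ((Φ : Set U) \ {y}) := by
  have hchain : IsChain (· ≤ ·) ({x, y, z} : Set U) := by
    intro a ha b hb _
    simp only [Set.mem_insert_iff, Set.mem_singleton_iff] at ha hb
    rcases ha with rfl | rfl | rfl <;> rcases hb with rfl | rfl | rfl <;>
      first
        | exact Or.inl le_rfl
        | exact Or.inl hxy.le
        | exact Or.inr hxy.le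
        | exact Or.inl hyz.le
        | exact Or.inr hyz.le
        | exact Or.inl (hxy.le.trans hyz.le)
        | exact Or.inr (hxy.le.trans hyz.le)
  obtain ⟨Φ, hΦ⟩ := hchain.exists_subset_flag
  have hx : x ∈ Φ := hΦ (by simp)
  have hy : y ∈ Φ := hΦ (by simp)
  have hz : z ∈ Φ := hΦ (by simp)
  have hside : ∀ c ∈ Φ, c ≠ y → c ≤ x ∨ z ≤ c := by
    intro c hc hcy
    rcases Φ.le_or_le hc hy with h | h
    · left
      rcases Φ.le_or_le hc hx with h1 | h1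
      · exact h1
      · rcases h1.eq_or_lt with rfl | h2
        · exact le_rfl
        · exact absurd (lt_of_le_of_ne h hcy) (hxy.2 h2)
    · right
      rcases Φ.le_or_le hz hc with h1 | h1
      · exact h1
      · rcases h1.eq_or_lt with rfl | h2
        · exact le_rfl
        · exact absurd h2 (hyz.2 (lt_of_le_of_ne h (Ne.symm hcy)))
  have hincomp : ¬ (y ≤ y' ∨ y' ≤ y) := by
    rintro (h | h)
    · exact hxy'.2 hxy.lt (lt_of_le_of_ne h hne)
    · exact hxy.2 hxy'.lt (lt_of_le_of_ne h (Ne.symm hne))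
  have hy' : y' ∉ Φ := fun h => hincomp (Φ.le_or_le hy h)
  let S : Set U := insert y' ((Φ : Set U) \ {y})
  have hSchain : IsChain (· ≤ ·) S := by
    refine (Φ.chain_le.mono Set.sdiff_subset).insert ?_
    rintro c ⟨hc, hcy⟩ _
    rcases hside c hc hcy with h | h
    · exact Or.inr (h.trans hxy'.le)
    · exact Or.inl (hyz'.le.trans h)
  have hxS : x ∈ S := Set.mem_insert_of_mem _ ⟨hx, fun h => hxy.lt.ne h⟩
  have hzS : z ∈ S := Set.mem_insert_of_mem _ ⟨hz, fun h => hyz.lt.ne' h⟩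
  have hy'S : y' ∈ S := Set.mem_insert _ _
  have hmax : ∀ ⦃s : Set U⦄, IsChain (· ≤ ·) s → S ⊆ s → S = s := by
    intro s hs hSs
    apply Set.Subset.antisymm hSs
    intro w hw
    by_cases hwy' : w = y'
    · rw [hwy']; exact hy'S
    have hwy : w ≠ y := by
      rintro rfl
      exact hincomp (hs.total hw (hSs hy'S))
    have hwcmp : w ≤ y ∨ y ≤ w := by
      rcases hs.total hw (hSs hxS) with h | h
      · exact Or.inl (h.trans hxy.le)
      · rcases hs.total hw (hSs hzS) with h' | h'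
        · rcases hs.total hw (hSs hy'S) with h2 | h2
          · rcases h.eq_or_lt with rfl | h3
            · exact Or.inl hxy.le
            · exact absurd (lt_of_le_of_ne h2 hwy') (hxy'.2 h3)
          · rcases h'.eq_or_lt with rfl | h3
            · exact Or.inr hyz.le
            · exact absurd h3 (hyz'.2 (lt_of_le_of_ne h2 (Ne.symm hwy')))
        · exact Or.inr (hyz.le.trans h')
    have hwΦ : w ∈ Φ := by
      rw [Flag.mem_iff_forall_le_or_ge]
      intro b hb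
      by_cases hby : b = y
      · rw [hby]; exact hwcmp
      · exact hs.total hw (hSs (Set.mem_insert_of_mem _ ⟨hb, hby⟩))
    exact Set.mem_insert_of_mem _ ⟨hwΦ, hwy⟩
  refine ⟨Φ, ⟨S, hSchain, hmax⟩, ⟨y, hy, y', hy'S, hne, ?_⟩, hy, rfl⟩
  change (Φ : Set U) \ {y} = S \ {y'}
  ext c
  constructor
  · rintro ⟨h1, h2⟩
    refine ⟨Set.mem_insert_of_mem _ ⟨h1, h2⟩, ?_⟩
    rintro rfl
    exact hy' h1
  · rintro ⟨h1, h2⟩
    rcases h1 with h1 | h1
    · exact absurd h1 h2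
    · exact h1

lemma cover_ne {U R : Type*} [PartialOrder U] [PartialOrder R] {f : U → R} (hf : AdjCond f)
    {x y y' z : U} (hxy : x ⋖ y) (hyz : y ⋖ z) (hxy' : x ⋖ y') (hyz' : y' ⋖ z) (hne : y ≠ y') :
    f y ≠ f y' := by
  intro heq
  obtain ⟨Φ, Ψ, hadj, hy, hΨ⟩ := exists_adjacent_flags hxy hyz hxy' hyz' hne
  obtain ⟨Φ', Ψ', h1, h2, a, ha, b, hb, hab, hdiff⟩ := hf Φ Ψ hadj
  have hΦ : (Φ : Set U) = insert y ((Φ : Set U) \ {y}) := by
    ext c
    constructor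
    · intro hc
      by_cases h : c = y
      · exact Or.inl h
      · exact Or.inr ⟨hc, h⟩
    · rintro (h | h)
      · rw [h]; exact hy
      · exact h.1
  have h3 : f '' (Φ : Set U) = f '' (Ψ : Set U) := by
    rw [hΨ, hΦ, Set.image_insert_eq, ← hΦ, Set.image_insert_eq, heq]
  have h4 : (Φ' : Set R) = Ψ' := by rw [h1, h2, h3]
  have h5 : b ∈ (Φ' : Set R) \ {a} := ⟨by rw [h4]; exact hb, fun h => hab (h.symm)⟩
  rw [hdiff] at h5
  exact h5.2 rfl

/-- The walk of length eight in a ranked poset. -/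
def Walk {α : Type*} [PartialOrder α] (r : α → ℕ) (v e x F x8 : α) : Prop :=
  ∃ x1 e2 v3 e4 F5 x6 F7 : α, (e < x1 ∧ x1 < F ∧ x1 ≠ x ∧ r x1 = 3) ∧
    (v < e2 ∧ e2 < x1 ∧ e2 ≠ e ∧ r e2 = 2) ∧ (v3 < e2 ∧ v3 ≠ v ∧ r v3 = 1) ∧
    (v3 < e4 ∧ e4 < x1 ∧ e4 ≠ e2 ∧ r e4 = 2) ∧ (x1 < F5 ∧ F5 ≠ F ∧ r F5 = 4) ∧
    (e4 < x6 ∧ x6 < F5 ∧ x6 ≠ x1 ∧ r x6 = 3) ∧ (x6 < F7 ∧ F7 ≠ F5 ∧ r F7 = 4) ∧
    (e4 < x8 ∧ x8 < F7 ∧ x8 ≠ x6 ∧ r x8 = 3)

/-- Heights in `U`, as natural numbers. -/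
structure HData (U : Type*) [PartialOrder U] [BoundedOrder U] (hgt : U → ℕ) : Prop where
  hh : ∀ x, height x = (hgt x : ℕ∞)
  top : hgt ⊤ = 5
  dia : ∀ x y z : U, x ⋖ y → y ⋖ z → {w | x < w ∧ w < z}.ncard = 2

namespace HData

variable {U : Type*} [PartialOrder U] [BoundedOrder U] {hgt : U → ℕ} (H : HData U hgt)
include H

lemma lt {x y : U} (h : x < y) : hgt x < hgt y := by
  have h1 := Order.height_add_one_le h
  rw [H.hh, H.hh] at h1
  exact_mod_cast (ENat.add_one_le_iff (ENat.coe_ne_top _)).1 h1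

lemma bot : hgt ⊥ = 0 := by
  have h := H.hh ⊥
  rw [Order.height_bot] at h
  exact_mod_cast h.symm

lemma covBy {x y : U} (h : x < y) (hr : hgt y = hgt x + 1) : x ⋖ y := by
  refine ⟨h, fun w h1 h2 => ?_⟩
  have h3 := H.lt h1
  have h4 := H.lt h2
  omega

lemma other {x y z : U} (hxy : x < y) (hyz : y < z) (hr : hgt z = hgt x + 2) :
    ∃ y', y' ≠ y ∧ x < y' ∧ y' < z ∧ hgt y' = hgt x + 1 := by
  have h1 := H.lt hxy
  have h2 := H.lt hyz
  have h3 := H.dia x y z (H.covBy hxy (by omega)) (H.covBy hyz (by omega))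
  obtain ⟨a, b, hab, hset⟩ := Set.ncard_eq_two.1 h3
  have key : ∀ c, c ∈ ({w | x < w ∧ w < z} : Set U) → x < c ∧ c < z ∧ hgt c = hgt x + 1 := by
    rintro c ⟨h4, h5⟩
    have h6 := H.lt h4
    have h7 := H.lt h5
    exact ⟨h4, h5, by omega⟩
  have ha : a ∈ ({w | x < w ∧ w < z} : Set U) := by rw [hset]; simp
  have hb : b ∈ ({w | x < w ∧ w < z} : Set U) := by rw [hset]; simp
  by_cases hay : a = y
  · exact ⟨b, fun h => hab (hay.trans h.symm), key b hb⟩
  · exact ⟨a, hay, key a ha⟩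

lemma exists_walk {v e x F : U} (h1 : v < e) (h2 : e < x) (h3 : x < F) (hv : hgt v = 1)
    (he : hgt e = 2) (hx : hgt x = 3) (hF : hgt F = 4) : ∃ x8, Walk hgt v e x F x8 := by
  have htop : ∀ {y : U}, hgt y = 4 → y < ⊤ := by
    intro y hy
    rw [lt_top_iff_ne_top]
    rintro rfl
    rw [H.top] at hy
    omega
  have hbot : ∀ {y : U}, hgt y = 1 → ⊥ < y := by
    intro y hy
    rw [bot_lt_iff_ne_bot]
    rintro rfl
    rw [H.bot] at hy
    omega
  obtain ⟨x1, hx1, h4, h5, h6⟩ := H.other h2 h3 (by omega)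
  obtain ⟨e2, he2, h7, h8, h9⟩ := H.other h1 h4 (by omega)
  obtain ⟨v3, hv3, h10, h11, h12⟩ := H.other (hbot hv) h7 (by rw [H.bot]; omega)
  rw [H.bot] at h12
  obtain ⟨e4, he4, h13, h14, h15⟩ := H.other h11 h8 (by omega)
  obtain ⟨F5, hF5, h16, h17, h18⟩ := H.other h5 (htop hF) (by rw [H.top]; omega)
  obtain ⟨x6, hx6, h19, h20, h21⟩ := H.other h14 h16 (by omega)
  obtain ⟨F7, hF7, h22, h23, h24⟩ := H.other h20 h17 (by rw [H.top]; omega)
  obtain ⟨x8, hx8, h25, h26, h27⟩ := H.other h19 h22 (by omega)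
  exact ⟨x8, x1, e2, v3, e4, F5, x6, F7, ⟨h4, h5, hx1, by omega⟩, ⟨h7, h8, he2, by omega⟩,
    ⟨h11, hv3, by omega⟩, ⟨h13, h14, he4, by omega⟩, ⟨h16, hF5, by omega⟩,
    ⟨h19, h20, hx6, by omega⟩, ⟨h22, hF7, by omega⟩, ⟨h25, h26, hx8, by omega⟩⟩

end HData

section cover

variable {U : Type*} [PartialOrder U] [BoundedOrder U] {hgt : U → ℕ}
  {M : ℕ} [hok : Fact (okB 41 M = true)]

/-- Data of a cover onto a coded poset. -/
structure CData (hgt : U → ℕ) (f : U → CT 41 M) : Prop where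
  mono : Monotone f
  rk : ∀ x, dig rankR (f x).ix = hgt x
  adj : AdjCond f

namespace CData

variable {f : U → CT 41 M} (H : HData U hgt) (C : CData hgt f)
include H C

lemma lt {x y : U} (h : x < y) : f x < f y := by
  refine lt_of_le_of_ne (C.mono h.le) ?_
  intro heq
  have h1 := H.lt h
  rw [← C.rk, ← C.rk, heq] at h1
  exact lt_irrefl _ h1

lemma ne {x y y' z : U} (hxy : x < y) (hyz : y < z) (hxy' : x < y') (hyz' : y' < z)
    (hr : hgt z = hgt x + 2) (hne : y ≠ y') : f y ≠ f y' := by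
  have h1 := H.lt hxy
  have h2 := H.lt hyz
  have h3 := H.lt hxy'
  have h4 := H.lt hyz'
  exact cover_ne C.adj (H.covBy hxy (by omega)) (H.covBy hyz (by omega))
    (H.covBy hxy' (by omega)) (H.covBy hyz' (by omega)) hne

lemma ne_bot {y y' z : U} (hyz : y < z) (hyz' : y' < z) (hy : hgt y = 1) (hy' : hgt y' = 1)
    (hz : hgt z = 2) (hne : y ≠ y') : f y ≠ f y' := by
  have hb : ∀ {y : U}, hgt y = 1 → ⊥ < y := by
    intro y hy
    rw [bot_lt_iff_ne_bot]
    rintro rfl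
    rw [H.bot] at hy
    omega
  exact C.ne H (hb hy) hyz (hb hy') hyz' (by rw [H.bot]; omega) hne

lemma ne_top {x y y' : U} (hxy : x < y) (hxy' : x < y') (hy : hgt y = 4) (hy' : hgt y' = 4)
    (hx : hgt x = 3) (hne : y ≠ y') : f y ≠ f y' := by
  have ht : ∀ {y : U}, hgt y = 4 → y < ⊤ := by
    intro y hy
    rw [lt_top_iff_ne_top]
    rintro rfl
    rw [H.top] at hy
    omega
  exact C.ne H hxy (ht hy) hxy' (ht hy') (by rw [H.top]; omega) hne

lemma walk {v e x F x8 : U} (h1 : v < e) (h2 : e < x) (h3 : x < F) (hv : hgt v = 1)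
    (he : hgt e = 2) (hx : hgt x = 3) (hF : hgt F = 4) (hw : Walk hgt v e x F x8) :
    Walk (fun a : CT 41 M => dig rankR a.ix) (f v) (f e) (f x) (f F) (f x8) := by
  obtain ⟨x1, e2, v3, e4, F5, x6, F7, ⟨a1, a2, a3, a4⟩, ⟨b1, b2, b3, b4⟩, ⟨c1, c2, c3⟩,
    ⟨d1, d2, d3, d4⟩, ⟨e1', e2', e3'⟩, ⟨f1, f2, f3, f4⟩, ⟨g1, g2, g3⟩, ⟨i1, i2, i3, i4⟩⟩ := hw
  refine ⟨f x1, f e2, f v3, f e4, f F5, f x6, f F7, ⟨C.lt H a1, C.lt H a2, ?_, ?_⟩,
    ⟨C.lt H b1, C.lt H b2, ?_, ?_⟩, ⟨C.lt H c1, ?_, ?_⟩, ⟨C.lt H d1, C.lt H d2, ?_, ?_⟩,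
    ⟨C.lt H e1', ?_, ?_⟩, ⟨C.lt H f1, C.lt H f2, ?_, ?_⟩, ⟨C.lt H g1, ?_, ?_⟩,
    ⟨C.lt H i1, C.lt H i2, ?_, ?_⟩⟩
  · exact C.ne H a1 a2 h2 h3 (by omega) a3
  · exact (C.rk _).trans a4
  · exact C.ne H b1 b2 h1 a1 (by omega) b3
  · exact (C.rk _).trans b4
  · exact C.ne_bot H c1 b1 c3 hv b4 c2
  · exact (C.rk _).trans c3
  · exact C.ne H d1 d2 c1 b2 (by omega) d3
  · exact (C.rk _).trans d4
  · exact C.ne_top H e1' a2 e3' hF a4 e2'
  · exact (C.rk _).trans e3'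
  · exact C.ne H f1 f2 d2 e1' (by omega) f3
  · exact (C.rk _).trans f4
  · exact C.ne_top H g1 f2 g3 e3' f4 g2
  · exact (C.rk _).trans g3
  · exact C.ne H i1 i2 f1 g1 (by omega) i3
  · exact (C.rk _).trans i4

end CData

/-- The face of `U` corresponding to a face of `P` in the facet `F`. -/
def up {F : U} (g : Set.Iic F ≃o PP) (y : PP) : U := ((g.symm y : Set.Iic F) : U)

lemma up_lt {F : U} (g : Set.Iic F ≃o PP) {y y' : PP} (h : y < y') : up g y < up g y' := by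
  have h1 : g.symm y < g.symm y' := by
    rw [g.symm.lt_iff_lt]; exact h
  exact h1

lemma up_le {F : U} (g : Set.Iic F ≃o PP) (y : PP) : up g y ≤ F := (g.symm y).2

lemma up_inj {F : U} (g : Set.Iic F ≃o PP) {y y' : PP} (h : up g y = up g y') : y = y' :=
  g.symm.injective (Subtype.ext h)

lemma up_hgt (H : HData U hgt) {F : U} (g : Set.Iic F ≃o PP) (y : PP) :
    hgt (up g y) = dig rankP y.ix := by
  have h1 : height (up g y) = height (g.symm y) := by
    unfold up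
    symm
    apply Order.height_eq_of_strictMono (fun a : Set.Iic F => (a : U))
    · intro a b hab; exact hab
    · intro a b hab
      exact ⟨⟨b, hab.le.trans a.2⟩, hab, rfl⟩
  rw [Order.height_orderIso, gP.height_eq, H.hh] at h1
  exact_mod_cast h1

lemma ncard_up {F : U} (g : Set.Iic F ≃o PP) (y : PP) :
    (Set.Iic (up g y)).ncard = (Set.Iic y).ncard := by
  unfold up
  rw [ncard_Iic_section g, g.apply_symm_apply]

lemma eq_up {F : U} (g : Set.Iic F ≃o PP) {x : U} (hx : x ≤ F) : ∃ y, up g y = x := by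
  refine ⟨g ⟨x, hx⟩, ?_⟩
  unfold up
  rw [g.symm_apply_apply]

/-- Elements of `P` by index. -/
def pe (i : ℕ) (h : i < 22) : PP := CT.mk' 21 codeP i h

lemma pe_facts : pe 1 (by norm_num) < pe 9 (by norm_num) ∧ pe 1 (by norm_num) < pe 10 (by norm_num)
    ∧ pe 2 (by norm_num) < pe 9 (by norm_num) ∧ pe 2 (by norm_num) < pe 10 (by norm_num) ∧
    pe 9 (by norm_num) < dP ∧ pe 10 (by norm_num) < dP := by
  have h := digonPB
  simp only [Bool.and_eq_true] at h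
  obtain ⟨⟨⟨⟨⟨h1, h2⟩, h3⟩, h4⟩, h5⟩, h6⟩ := h
  exact ⟨CT.lt_iff.2 h1, CT.lt_iff.2 h2, CT.lt_iff.2 h3, CT.lt_iff.2 h4, CT.lt_iff.2 h5,
    CT.lt_iff.2 h6⟩

/-- Digons are mapped to digons. -/
lemma project {f : U → CT 41 M} (H : HData U hgt) (C : CData hgt f) (hproj : projB M = true)
    {F x : U} (g : Set.Iic F ≃o PP) (hxF : x ≤ F) (hx : (Set.Iic x).ncard = 6) :
    (Set.Iic (f x)).ncard = 6 := by
  obtain ⟨y, rfl⟩ := eq_up g hxF
  have hy : y = dP := by rw [← charP', ← ncard_up g]; exact hx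
  subst hy
  obtain ⟨k1, k2, k3, k4, k5, k6⟩ := pe_facts
  have r0 : hgt (up g dP) = 3 := by rw [up_hgt H]; rfl
  have r1 : hgt (up g (pe 1 (by norm_num))) = 1 := by rw [up_hgt H]; rfl
  have r2 : hgt (up g (pe 2 (by norm_num))) = 1 := by rw [up_hgt H]; rfl
  have r9 : hgt (up g (pe 9 (by norm_num))) = 2 := by rw [up_hgt H]; rfl
  have r10 : hgt (up g (pe 10 (by norm_num))) = 2 := by rw [up_hgt H]; rfl
  have n1 : up g (pe 1 (by norm_num)) ≠ up g (pe 2 (by norm_num)) := by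
    intro h
    have := CT.ix_inj.2 (up_inj g h)
    exact absurd this (by decide)
  have n2 : up g (pe 9 (by norm_num)) ≠ up g (pe 10 (by norm_num)) := by
    intro h
    have := CT.ix_inj.2 (up_inj g h)
    exact absurd this (by decide)
  have m1 := C.ne_bot H (up_lt g k1) (up_lt g k3) r1 r2 r9 n1
  have m2 := C.ne H (up_lt g k1) (up_lt g k5) (up_lt g k2) (up_lt g k6) (by omega) n2
  -- the check
  rw [← digon_iff]
  by_contra hcon
  rw [Bool.not_eq_true] at hcon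
  have c0 := chk_spec hproj (f (up g dP)).ix_lt
  rw [C.rk, r0, hcon, Nat.beq_refl, Bool.not_true, Bool.false_or, Bool.false_or] at c0
  have c1 := chk_spec c0 (f (up g (pe 9 (by norm_num)))).ix_lt
  rw [C.rk, r9, Nat.beq_refl, CT.le_iff.1 (C.lt H (up_lt g k5)).le, Bool.and_self,
    Bool.not_true, Bool.false_or] at c1
  have c2 := chk_spec c1 (f (up g (pe 10 (by norm_num)))).ix_lt
  rw [C.rk, r10, Nat.beq_refl, CT.le_iff.1 (C.lt H (up_lt g k6)).le, Bool.and_self,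
    Bool.not_true, Bool.false_or, Bool.or_eq_true] at c2
  rcases c2 with c2 | c2
  · exact m2 (CT.ext (Nat.eq_of_beq_eq_true c2))
  have c3 := chk_spec c2 (f (up g (pe 1 (by norm_num)))).ix_lt
  rw [C.rk, r1, Nat.beq_refl, CT.le_iff.1 (C.lt H (up_lt g k1)).le,
    CT.le_iff.1 (C.lt H (up_lt g k2)).le, Bool.and_self, Bool.and_self,
    Bool.not_true, Bool.false_or] at c3
  have c4 := chk_spec c3 (f (up g (pe 2 (by norm_num)))).ix_lt
  rw [C.rk, r2, Nat.beq_refl, CT.le_iff.1 (C.lt H (up_lt g k3)).le,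
    CT.le_iff.1 (C.lt H (up_lt g k4)).le, Bool.and_self, Bool.and_self,
    Bool.not_true, Bool.false_or] at c4
  exact m1 (CT.ext (Nat.eq_of_beq_eq_true c4))

/-- Faces mapped to digons are digons. -/
lemma lift_digon {f : U → CT 41 M} (H : HData U hgt) (C : CData hgt f) (hlift : liftB M = true)
    {F x : U} (g : Set.Iic F ≃o PP) (hxF : x < F) (hrx : hgt x = 3) (hrF : hgt F = 4)
    (hx : (Set.Iic (f x)).ncard = 6) : (Set.Iic x).ncard = 6 := by
  obtain ⟨y, rfl⟩ := eq_up g hxF.le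
  rw [ncard_up, charP']
  by_contra hy
  have hry : dig rankP y.ix = 3 := by rw [← up_hgt H g]; exact hrx
  have h := chk_spec facePB y.ix_lt
  rw [hry, Nat.beq_refl, Bool.not_true, Bool.false_or, Bool.or_eq_true] at h
  rcases h with h | h
  · exact hy (CT.ext (Nat.eq_of_beq_eq_true h))
  obtain ⟨v, hv, h⟩ := exq_spec h
  rw [Bool.and_eq_true] at h
  obtain ⟨hrv, h⟩ := h
  obtain ⟨a, ha, h⟩ := exq_spec h
  rw [Bool.and_eq_true] at h
  obtain ⟨hra, h⟩ := h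
  obtain ⟨b, hb, h⟩ := exq_spec h
  rw [Bool.and_eq_true, Bool.and_eq_true] at h
  obtain ⟨⟨hrb, hab⟩, h⟩ := h
  obtain ⟨y', hy', h⟩ := exq_spec h
  simp only [Bool.and_eq_true] at h
  obtain ⟨⟨⟨⟨⟨⟨⟨hry', hyy'⟩, k1⟩, k2⟩, k3⟩, k4⟩, k5⟩, k6⟩ := h
  have l1 : pe v hv < pe a ha := CT.lt_iff.2 k1
  have l2 : pe v hv < pe b hb := CT.lt_iff.2 k2
  have l3 : pe a ha < y := CT.lt_iff.2 k3
  have l4 : pe b hb < y := CT.lt_iff.2 k4
  have l5 : pe a ha < pe y' hy' := CT.lt_iff.2 k5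
  have l6 : pe b hb < pe y' hy' := CT.lt_iff.2 k6
  have ra : hgt (up g (pe a ha)) = 2 := by
    rw [up_hgt H]; exact Nat.eq_of_beq_eq_true hra
  have rb : hgt (up g (pe b hb)) = 2 := by
    rw [up_hgt H]; exact Nat.eq_of_beq_eq_true hrb
  have rv : hgt (up g (pe v hv)) = 1 := by
    rw [up_hgt H]; exact Nat.eq_of_beq_eq_true hrv
  have ry' : hgt (up g (pe y' hy')) = 3 := by
    rw [up_hgt H]; exact Nat.eq_of_beq_eq_true hry'
  have n1 : up g (pe a ha) ≠ up g (pe b hb) := by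
    intro h
    have h1 : a = b := CT.ix_inj.2 (up_inj g h)
    rw [h1, Nat.beq_refl] at hab
    exact absurd hab (by decide)
  have n2 : up g y ≠ up g (pe y' hy') := by
    intro h
    have h1 : y.ix = y' := CT.ix_inj.2 (up_inj g h)
    rw [h1, Nat.beq_refl] at hyy'
    exact absurd hyy' (by decide)
  have hy'F : up g (pe y' hy') < F := by
    refine lt_of_le_of_ne (up_le g _) ?_
    intro h
    rw [h] at ry'
    omega
  have m1 := C.ne H (up_lt g l1) (up_lt g l3) (up_lt g l2) (up_lt g l4) (by omega) n1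
  have m2 := C.ne H (up_lt g l3) hxF (up_lt g l5) hy'F (by omega) n2
  have c0 := chk_spec hlift (f F).ix_lt
  rw [C.rk, hrF, Nat.beq_refl, Bool.not_true, Bool.false_or] at c0
  have c1 := chk_spec c0 (f (up g y)).ix_lt
  rw [(digon_iff _).2 hx, CT.le_iff.1 (C.lt H hxF).le, Bool.and_self, Bool.not_true,
    Bool.false_or] at c1
  have c2 := chk_spec c1 (f (up g (pe y' hy'))).ix_lt
  rw [C.rk, ry', Nat.beq_refl, CT.le_iff.1 (C.lt H hy'F).le, Bool.and_self, Bool.not_true,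
    Bool.false_or, Bool.or_eq_true] at c2
  rcases c2 with c2 | c2
  · exact m2 (CT.ext (Nat.eq_of_beq_eq_true c2))
  have c3 := chk_spec c2 (f (up g (pe a ha))).ix_lt
  rw [C.rk, ra, Nat.beq_refl, CT.le_iff.1 (C.lt H (up_lt g l3)).le,
    CT.le_iff.1 (C.lt H (up_lt g l5)).le, Bool.and_self, Bool.and_self, Bool.not_true,
    Bool.false_or] at c3
  have c4 := chk_spec c3 (f (up g (pe b hb))).ix_lt
  rw [C.rk, rb, Nat.beq_refl, CT.le_iff.1 (C.lt H (up_lt g l4)).le,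
    CT.le_iff.1 (C.lt H (up_lt g l6)).le, Bool.and_self, Bool.and_self, Bool.not_true,
    Bool.false_or] at c4
  exact m1 (CT.ext (Nat.eq_of_beq_eq_true c4))

end cover

end Pool.Agent.Lib.MP_993768_co
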