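import Mathlib
import Pool.Agent.Lib.MP_993768_co.NoCover

set_option autoImplicit false
set_option maxRecDepth 100000

/-!
No amalgamation of `P` and `Q` covers both `R1` and `R2`.
-/

namespace Pool.Agent.Lib.MP_993768_co

open Order

lemma or3 {a b c : Bool} (h : (!a || b || c) = true) (ha : a = true) (hb : b = false) :
    c = true := by
  rw [ha, hb] at h; simpa using h

lemma or2 {a c : Bool} (h : (!a || c) = true) (ha : a = true) : c = true := by
  rw [ha] at h; simpa using h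

lemma beq_of_eq {a b : ℕ} (h : a = b) : Nat.beq a b = true := by rw [h, Nat.beq_refl]

section

variable {M : ℕ} [hok : Fact (okB 41 M = true)]

lemma beq_ix {a b : CT 41 M} (h : a ≠ b) : Nat.beq a.ix b.ix = false := by
  rw [← Bool.not_eq_true]
  intro h'
  exact h (CT.ext (Nat.eq_of_beq_eq_true h'))

lemma and3 {a b c : Bool} (ha : a = true) (hb : b = true) (hc : c = true) :
    (a && b && c) = true := by rw [ha, hb, hc]; rfl

lemma and2 {a b : Bool} (ha : a = true) (hb : b = true) : (a && b) = true := by rw [ha, hb]; rfl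

lemma le_of_lt' {a b : CT 41 M} (h : a < b) : leB 41 M a.ix b.ix = true := CT.le_iff.1 h.le

lemma walkB_spec {V E X FF X8 : CT 41 M} {concl : ℕ → Bool}
    (h : walkB M V.ix E.ix X.ix FF.ix concl = true)
    (hw : Walk (fun a : CT 41 M => dig rankR a.ix) V E X FF X8) : concl X8.ix = true := by
  obtain ⟨x1, e2, v3, e4, F5, x6, F7, ⟨a1, a2, a3, a4⟩, ⟨b1, b2, b3, b4⟩, ⟨c1, c2, c3⟩,
    ⟨d1, d2, d3, d4⟩, ⟨e1', e2', e3'⟩, ⟨f1, f2, f3, f4⟩, ⟨g1, g2, g3⟩, ⟨i1, i2, i3, i4⟩⟩ := hw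
  unfold walkB at h
  have h1 := or3 (chk_spec h x1.ix_lt) (and3 (beq_of_eq a4) (le_of_lt' a1) (le_of_lt' a2))
    (beq_ix a3)
  have h2 := or3 (chk_spec h1 e2.ix_lt) (and3 (beq_of_eq b4) (le_of_lt' b1) (le_of_lt' b2))
    (beq_ix b3)
  have h3 := or3 (chk_spec h2 v3.ix_lt) (and2 (beq_of_eq c3) (le_of_lt' c1)) (beq_ix c2)
  have h4 := or3 (chk_spec h3 e4.ix_lt) (and3 (beq_of_eq d4) (le_of_lt' d1) (le_of_lt' d2))
    (beq_ix d3)
  have h5 := or3 (chk_spec h4 F5.ix_lt) (and2 (beq_of_eq e3') (le_of_lt' e1')) (beq_ix e2')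
  have h6 := or3 (chk_spec h5 x6.ix_lt) (and3 (beq_of_eq f4) (le_of_lt' f1) (le_of_lt' f2))
    (beq_ix f3)
  have h7 := or3 (chk_spec h6 F7.ix_lt) (and2 (beq_of_eq g3) (le_of_lt' g1)) (beq_ix g2)
  exact or3 (chk_spec h7 X8.ix_lt) (and3 (beq_of_eq i4) (le_of_lt' i1) (le_of_lt' i2))
    (beq_ix i3)

lemma allDigonB_spec {f : ℕ → ℕ → ℕ → ℕ → Bool} (h : allDigonB M f = true)
    {V E X FF : CT 41 M} (h1 : V < E) (h2 : E < X) (h3 : X < FF) (hv : dig rankR V.ix = 1)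
    (he : dig rankR E.ix = 2) (hF : dig rankR FF.ix = 4) (hX : (Set.Iic X).ncard = 6) :
    f V.ix E.ix X.ix FF.ix = true := by
  unfold allDigonB at h
  have k1 := or2 (chk_spec h X.ix_lt) ((digon_iff X).2 hX)
  have k2 := or2 (chk_spec k1 FF.ix_lt) (and2 (beq_of_eq hF) (le_of_lt' h3))
  have k3 := or2 (chk_spec k2 E.ix_lt) (and2 (beq_of_eq he) (le_of_lt' h2))
  exact or2 (chk_spec k3 V.ix_lt) (and2 (beq_of_eq hv) (le_of_lt' h1))

end

/-- No amalgamation of `P` and `Q` covers both `R1` and `R2`. -/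
theorem no_common_cover {U : Type*} [PartialOrder U] [BoundedOrder U]
    (hU : IsAmalgamation 4 PP QQ U) (hc1 : Covers U RR1) (hc2 : Covers U RR2) : False := by
  obtain ⟨f1, s1, m1, k1, a1⟩ := hc1
  obtain ⟨f2, s2, m2, k2, a2⟩ := hc2
  have G1 : Graded (fun a : RR1 => dig rankR a.ix) 4 := graded_of_check gradedR1
  have G2 : Graded (fun a : RR2 => dig rankR a.ix) 4 := graded_of_check gradedR2
  obtain ⟨hgt, hhgt⟩ : ∃ hgt : U → ℕ, ∀ x, dig rankR (f1 x).ix = hgt x := ⟨_, fun _ => rfl⟩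
  have hh : ∀ x, height x = (hgt x : ℕ∞) := fun x => by
    rw [← k1 x, G1.height_eq, ← hhgt]
  have htop : hgt ⊤ = 5 := by
    have h1 : f1 ⊤ = ⊤ := by
      obtain ⟨y, hy⟩ := s1 ⊤
      apply top_le_iff.1
      rw [← hy]
      exact m1 le_top
    rw [← hhgt, h1]
    exact G1.top
  have H : HData U hgt := ⟨hh, htop, hU.polytope.diamond⟩
  have C1 : CData hgt f1 := ⟨m1, hhgt, a1⟩
  have C2 : CData hgt f2 := ⟨m2, fun x => by
    have h1 := k2 x
    rw [G2.height_eq, hh] at h1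
    exact_mod_cast h1, a2⟩
  have hco : ∀ F, hgt F = 4 → IsCoatom F := by
    intro F hF
    refine ⟨?_, fun b hb => ?_⟩
    · intro h
      rw [h, htop] at hF
      omega
    · by_contra hbt
      have h1 := H.lt hb
      have h2 := H.lt (lt_top_iff_ne_top.2 hbt)
      omega
  obtain ⟨F, hF⟩ := s1 (CT.mk' 41 codeR1 33 (by norm_num))
  have hF4 : hgt F = 4 := by
    rw [← hhgt, hF]; rfl
  obtain ⟨g⟩ := hU.facets F (hco F hF4)
  obtain ⟨p1, p2, p3, p4, p5, p6⟩ := pe_facts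
  have r0 : hgt (up g dP) = 3 := by rw [up_hgt H]; rfl
  have r1 : hgt (up g (pe 1 (by norm_num))) = 1 := by rw [up_hgt H]; rfl
  have r2 : hgt (up g (pe 2 (by norm_num))) = 1 := by rw [up_hgt H]; rfl
  have r9 : hgt (up g (pe 9 (by norm_num))) = 2 := by rw [up_hgt H]; rfl
  have n1 : up g (pe 1 (by norm_num)) ≠ up g (pe 2 (by norm_num)) := by
    intro h
    have := CT.ix_inj.2 (up_inj g h)
    exact absurd this (by decide)
  have hxF : up g dP < F := by
    refine lt_of_le_of_ne (up_le g _) ?_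
    intro h
    rw [h] at r0
    omega
  have hx6 : (Set.Iic (up g dP)).ncard = 6 := by rw [ncard_up, charP']
  -- the two walks
  obtain ⟨x8, w⟩ := H.exists_walk (up_lt g p1) (up_lt g p5) hxF r1 r9 r0 hF4
  obtain ⟨x8', w'⟩ := H.exists_walk (up_lt g p3) (up_lt g p5) hxF r2 r9 r0 hF4
  -- neither ends in a face mapped to a digon of `R2`
  have key : ∀ v x8 : U, v < up g (pe 9 (by norm_num)) → hgt v = 1 →
      Walk hgt v (up g (pe 9 (by norm_num))) (up g dP) F x8 → digonB codeR2 (f2 x8).ix = true →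
      False := by
    intro v x8 hv rv w hd
    have hw1 := C1.walk H hv (up_lt g p5) hxF rv r9 r0 hF4 w
    obtain ⟨x1, e2, v3, e4, F5, x6, F7, -, -, -, -, -, -, ⟨g1, g2, g3⟩, ⟨i1, i2, i3, i4⟩⟩ := w
    obtain ⟨g7⟩ := hU.facets F7 (hco F7 g3)
    have h1 : (Set.Iic x8).ncard = 6 :=
      lift_digon H C2 liftR2 g7 i2 i4 g3 ((digon_iff _).1 hd)
    have h2 : (Set.Iic (f1 x8)).ncard = 6 := project H C1 projR1 g7 i2.le h1
    have h3 : (Set.Iic (f1 (up g dP))).ncard = 6 := project H C1 projR1 g hxF.le hx6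
    have h4 := allDigonB_spec walkR1 (C1.lt H hv) (C1.lt H (up_lt g p5)) (C1.lt H hxF)
      ((C1.rk _).trans rv) ((C1.rk _).trans r9) ((C1.rk _).trans hF4) h3
    have h5 := walkB_spec h4 hw1
    rw [(digon_iff _).2 h2] at h5
    exact absurd h5 (by decide)
  have h3 : (Set.Iic (f2 (up g dP))).ncard = 6 := project H C2 projR2 g hxF.le hx6
  have h4 := allDigonB_spec walkR2 (C2.lt H (up_lt g p1)) (C2.lt H (up_lt g p5)) (C2.lt H hxF)
      ((C2.rk _).trans r1) ((C2.rk _).trans r9) ((C2.rk _).trans hF4) h3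
  have h5 := or3 (chk_spec h4 (f2 (up g (pe 2 (by norm_num)))).ix_lt)
    (and2 (beq_of_eq ((C2.rk _).trans r2)) (le_of_lt' (C2.lt H (up_lt g p3))))
    (beq_ix (C2.ne_bot H (up_lt g p3) (up_lt g p1) r2 r1 r9 n1.symm))
  have h6 := walkB_spec h5 (C2.walk H (up_lt g p1) (up_lt g p5) hxF r1 r9 r0 hF4 w)
  have h7 := walkB_spec h6 (C2.walk H (up_lt g p3) (up_lt g p5) hxF r2 r9 r0 hF4 w')
  rw [Bool.or_eq_true] at h7
  rcases h7 with h7 | h7
  · exact key _ _ (up_lt g p1) r1 w h7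
  · exact key _ _ (up_lt g p3) r2 w' h7

end Pool.Agent.Lib.MP_993768_co
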